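import Pool.Agent.Helper52.PG.Goals

/-!
PROJECT C2, target (a), part V: regions of the operations (adapted from Helper37/Arb/Planar.lean).
-/

namespace Pool.Agent.Helper52.PG

open Pool.Agent.Helper36.SC Pool.Agent.Helper37.Arb

theorem facOps : GoalFacOps := by
  refine ⟨⟨Corner, faces_cross⟩, ?_, ?_, ?_, ?_, ?_⟩
  · rintro S T ⟨F₁, ⟨G₁⟩⟩ ⟨F₂, ⟨G₂⟩⟩
    refine ⟨_, faces_stack' (V₁ := S.V) (V₂ := T.V)
      (D := (mstack S T).D) inferInstance inferInstance G₁ G₂ (fun v => rfl)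
      (fun v => rfl) ?_ ?_ ?_ ?_ ?_ ?_ ?_ ?_⟩
    · exact swO_l _ _ _
    · exact swO_r _ _ _
    · exact swU_l _ _ _
    · exact swU_r _ _ _
    · exact fun v h => swO_n _ (fun e => h (Sum.inl.inj e)) (fun e => Sum.inl_ne_inr e)
    · exact fun v h => swO_n _ (fun e => Sum.inr_ne_inl e) (fun e => h (Sum.inr.inj e))
    · exact fun v h => swU_n _ (fun e => h (Sum.inl.inj e)) (fun e => Sum.inl_ne_inr e)
    · exact fun v h => swU_n _ (fun e => Sum.inr_ne_inl e) (fun e => h (Sum.inr.inj e))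
  · rintro S T ⟨F₁, ⟨G₁⟩⟩ ⟨F₂, ⟨G₂⟩⟩
    refine ⟨_, faces_opp' (V₁ := S.V) (V₂ := T.V)
      (D := (mopp S T).D) inferInstance inferInstance G₁ G₂ (fun v => rfl)
      (fun v => rfl) ?_ ?_ (fun v => rfl) (fun v => rfl) ?_ ?_⟩
    · exact swO_l _ _ _
    · exact swO_r _ _ _
    · exact fun v h => swO_n _ (fun e => h (Sum.inl.inj e)) (fun e => Sum.inl_ne_inr e)
    · exact fun v h => swO_n _ (fun e => Sum.inr_ne_inl e) (fun e => h (Sum.inr.inj e))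
  · rintro s P T ⟨F₁, ⟨G₁⟩⟩ ⟨F₂, ⟨G₂⟩⟩
    refine ⟨_, faces_besum' (V₁ := P.V) (V₂ := T.V)
      (D := (mbeside P T).D) inferInstance inferInstance G₁ G₂ (fun v => rfl)
      (fun v => rfl) ?_ ?_ (fun v => rfl) (fun v => rfl) ?_ ?_⟩
    · exact swU_l _ _ _
    · exact swU_r _ _ _
    · exact fun v h => swU_n _ (fun e => h (Sum.inl.inj e)) (fun e => Sum.inl_ne_inr e)
    · exact fun v h => swU_n _ (fun e => Sum.inr_ne_inl e) (fun e => h (Sum.inr.inj e))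
  · rintro M ⟨F₁, ⟨G₁⟩⟩
    exact ⟨_, faces_flip G₁⟩
  · rintro M ⟨F₁, ⟨G₁⟩⟩
    exact ⟨_, faces_turn G₁⟩

end Pool.Agent.Helper52.PG
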