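import Pool.Agent.Helper52.PG.Goals
import Pool.Agent.Helper14.Arb.Rturn
import Pool.Agent.Helper9.Arb.Rflip

/-!
PROJECT C2, target (a), part IV: responses of turn and flip.
-/

namespace Pool.Agent.Helper52.PG

open Pool.Agent.Helper36.SC Pool.Agent.Helper37.Arb Pool.Agent.Helper14.Arb
open Pool.Agent.Helper9.Arb Matrix

theorem rTurn : GoalRTurn := by
  intro P j a b hR
  obtain ⟨hlr, hx⟩ := hR
  refine ⟨(Fintype.card P.V : ℤ) - j - 1, hlr, ?_⟩
  intro x hx0
  have hxi : 0 < x⁻¹ := inv_pos.mpr hx0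
  have hxne : x ≠ 0 := hx0.ne'
  obtain ⟨hdet, hsol⟩ := hx x⁻¹ hxi
  have hmat : openMat false (mturn P) x = x • openMat false P x⁻¹ :=
    mat_turn P.D P.l P.r hlr hxne
  refine ⟨?_, ?_⟩
  · rw [hmat]
    have h5 : (x • openMat false P x⁻¹).det
        = x ^ (Fintype.card P.V) * (openMat false P x⁻¹).det := Matrix.det_smul _ _
    have h6 : x ^ ((Fintype.card P.V : ℤ) - j - 1) * (b x⁻¹ + x * a x⁻¹)
        = x ^ (Fintype.card P.V) * ((x⁻¹) ^ j * (a x⁻¹ + x⁻¹ * b x⁻¹)) := by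
      rw [zpow_sub₀ hxne, zpow_sub₀ hxne, zpow_natCast, zpow_one, _root_.inv_zpow]
      have hxj : (x : ℝ) ^ j ≠ 0 := zpow_ne_zero _ hxne
      field_simp
      ring
    rw [hdet] at h5
    show (x • openMat false P x⁻¹).det = _
    rw [h5, h6]
  · intro s t
    obtain ⟨h, hh, hl, hr⟩ := hsol s t
    refine ⟨h, ?_, ?_, ?_⟩
    · rw [hmat]
      show (x • openMat false P x⁻¹).mulVec h = Pi.single P.l (fwd (turnD P.D
        P.l P.r) x P.l * s) + Pi.single P.r (fwd (turnD P.D P.l P.r) x P.r * t)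
      rw [Matrix.smul_mulVec, hh, fwd_turn _ _ _ _ hxne, fwd_turn _ _ _ _ hxne, smul_add,
        ← Pi.single_smul, ← Pi.single_smul]
      simp only [smul_eq_mul, mul_assoc]
    · have hU : (mturn P).D.underNext (mturn P).l = P.D.underNext P.r := by
        show P.D.underNext (Equiv.swap P.l P.r P.l) = _
        rw [Equiv.swap_apply_left]
      rw [hU]
      have e : x * ((a x⁻¹ + x⁻¹ * b x⁻¹) * h (P.D.underNext P.r)) =
          x * (x⁻¹ * b x⁻¹ * s + a x⁻¹ * t) := by rw [hr]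
      have e1 : x * (x⁻¹ * b x⁻¹) = b x⁻¹ := by field_simp
      show (b x⁻¹ + x * a x⁻¹) * h (P.D.underNext P.r) = b x⁻¹ * s + x * a x⁻¹ * t
      linear_combination e + (s - h (P.D.underNext P.r)) * e1
    · have hU : (mturn P).D.underNext (mturn P).r = P.D.underNext P.l := by
        show P.D.underNext (Equiv.swap P.l P.r P.r) = _
        rw [Equiv.swap_apply_right]
      rw [hU]
      have e : x * ((a x⁻¹ + x⁻¹ * b x⁻¹) * h (P.D.underNext P.l)) =
          x * (a x⁻¹ * s + x⁻¹ * b x⁻¹ * t) := by rw [hl]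
      have e1 : x * (x⁻¹ * b x⁻¹) = b x⁻¹ := by field_simp
      show (b x⁻¹ + x * a x⁻¹) * h (P.D.underNext P.l) = x * a x⁻¹ * s + b x⁻¹ * t
      linear_combination e + (t - h (P.D.underNext P.l)) * e1

theorem rFlip : GoalRFlip := by
  intro M j L R b k hk hV hR
  refine ⟨(Fintype.card M.V : ℤ) - j, ?_⟩
  intro y hy
  obtain ⟨x, hx, rfl⟩ : ∃ x : ℝ, 0 < x ∧ y = x⁻¹ := ⟨y⁻¹, inv_pos.2 hy, (inv_inv y).symm⟩
  have hx' : x ≠ 0 := hx.ne'
  obtain ⟨hL0, hR0, hb0, hrel⟩ := hV x hx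
  obtain ⟨hdet, hsol⟩ := hR x hx
  have ha0 : 0 < b x + R x := add_pos hb0 hR0
  have hkl : k M.l = (if M.D.pos M.l then (0 : ℤ) else 1) := by
    have := hk.hl
    linarith
  have hkr : k M.r = -(if M.D.pos M.r then (0 : ℤ) else 1) := by
    have := hk.hr
    rw [if_pos rfl] at this
    linarith
  have hωl : (x ^ (-k M.l))⁻¹ = fwd M.D x M.l := by
    rw [← _root_.zpow_neg, fwd_zpow, neg_neg, hkl]
  have hωi : (x ^ (-k (M.D.underNext M.l)))⁻¹ = fwd M.D x (M.D.underNext M.l) := by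
    rw [← _root_.zpow_neg, fwd_zpow, neg_neg]
    congr 1
    have := hk.hU M.l
    linarith
  have hωr : (x ^ (-k M.r))⁻¹ * x = bwd M.D x M.r := by
    rw [← _root_.zpow_neg, bwd_zpow, neg_neg, hkr, ← zpow_add_one₀ hx']
    congr 1
    ring
  have hωo : (x ^ (-k (M.D.overNext M.r)))⁻¹ * x = bwd M.D x (M.D.overNext M.r) := by
    rw [← _root_.zpow_neg, bwd_zpow, neg_neg, ← zpow_add_one₀ hx']
    congr 1
    have := hk.hO M.r
    linarith
  have hdet0 : (openMat true M x).det ≠ 0 := by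
    rw [hdet]
    exact mul_ne_zero (zpow_ne_zero _ hx') ha0.ne'
  have hsum : x * b x + L x = b x + R x := by linarith
  show (openMat true (flipM M) x⁻¹).det = _ * (x⁻¹⁻¹ * b x⁻¹⁻¹ + L x⁻¹⁻¹) ∧
    ∀ s t : ℝ, ∃ h : M.V → ℝ,
      (openMat true (flipM M) x⁻¹).mulVec h =
        Pi.single M.r (fwd M.D x⁻¹ M.r * s) +
          Pi.single (M.D.underNext M.l) (bwd M.D x⁻¹ (M.D.underNext M.l) * t) ∧
      (x⁻¹⁻¹ * b x⁻¹⁻¹ + L x⁻¹⁻¹) * h (M.D.overNext M.r) =
        R x⁻¹⁻¹ * s + x⁻¹ * (x⁻¹⁻¹ * b x⁻¹⁻¹) * t ∧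
      (x⁻¹⁻¹ * b x⁻¹⁻¹ + L x⁻¹⁻¹) * h M.l = (x⁻¹⁻¹ * b x⁻¹⁻¹) * s + L x⁻¹⁻¹ * t
  rw [inv_inv, hsum]
  refine ⟨?_, ?_⟩
  · rw [flip_det M k hk hx, hdet]
    rw [_root_.inv_zpow, zpow_sub₀ hx', zpow_natCast, inv_pow]
    have h1 : x ^ j ≠ 0 := zpow_ne_zero _ hx'
    have h2 : x ^ Fintype.card M.V ≠ 0 := pow_ne_zero _ hx'
    field_simp
  · intro s t
    obtain ⟨h₁, s1, s2, s3⟩ := hsol 0 1
    obtain ⟨h₀, r1, r2, r3⟩ := hsol 1 0
    have hu : IsUnit (openMat true M x).det := isUnit_iff_ne_zero.2 hdet0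
    obtain ⟨g, hg⟩ : ∃ g : M.V → ℝ, g ᵥ* openMat true M x =
        Pi.single M.r (x * s) + Pi.single (M.D.underNext M.l) t := by
      refine ⟨(Pi.single M.r (x * s) + Pi.single (M.D.underNext M.l) t) ᵥ*
        (openMat true M x)⁻¹, ?_⟩
      rw [Matrix.vecMul_vecMul, Matrix.nonsing_inv_mul _ hu, Matrix.vecMul_one]
    have dual : ∀ h : M.V → ℝ, g ⬝ᵥ (openMat true M x *ᵥ h) =
        x * s * h M.r + t * h (M.D.underNext M.l) := by
      intro h
      rw [Matrix.dotProduct_mulVec, hg, add_dotProduct, single_dotProduct, single_dotProduct]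
    have d1 := dual h₁
    rw [s1, dotProduct_add, dotProduct_single, dotProduct_single] at d1
    have d0 := dual h₀
    rw [r1, dotProduct_add, dotProduct_single, dotProduct_single] at d0
    refine ⟨fun v => (x ^ (-k v))⁻¹ * g v, ?_, ?_, ?_⟩
    · have h1 : ∀ v : M.V, (openMat true (flipM M) x⁻¹ *ᵥ fun v => (x ^ (-k v))⁻¹ * g v) v =
          x⁻¹ * (x ^ (-k v))⁻¹ * (g ᵥ* openMat true M x) v := by
        intro v
        show ∑ w : M.V, openMat true (flipM M) x⁻¹ v w * ((x ^ (-k w))⁻¹ * g w) =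
          x⁻¹ * (x ^ (-k v))⁻¹ * ∑ w : M.V, g w * openMat true M x w v
        rw [Finset.mul_sum]
        refine Finset.sum_congr rfl fun w _ => ?_
        rw [flip_entry M k hk hx v w]
        have : x ^ (-k w) ≠ 0 := zpow_ne_zero _ hx'
        field_simp
      have h2 : ∀ v : M.V, x⁻¹ * (x ^ (-k v))⁻¹ * ((Pi.single M.r (x * s) : M.V → ℝ) v +
          (Pi.single (M.D.underNext M.l) t : M.V → ℝ) v) =
        (Pi.single M.r (fwd M.D x⁻¹ M.r * s) : M.V → ℝ) v +
          (Pi.single (M.D.underNext M.l) (bwd M.D x⁻¹ (M.D.underNext M.l) * t) : M.V → ℝ) v := by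
        intro v
        rw [mul_add]
        congr 1
        · rw [Pi.single_apply, Pi.single_apply]
          by_cases h : v = M.r
          · rw [if_pos h, if_pos h, fwd_inv _ hx, ← hωr, h]
            field_simp
          · rw [if_neg h, if_neg h, mul_zero]
        · rw [Pi.single_apply, Pi.single_apply]
          by_cases h : v = M.D.underNext M.l
          · rw [if_pos h, if_pos h, bwd_inv _ hx, ← hωi, h]
          · rw [if_neg h, if_neg h, mul_zero]
      funext v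
      refine (h1 v).trans ?_
      rw [hg]
      exact h2 v
    · have e1 : (b x + R x) * ((x ^ (-k (M.D.overNext M.r)))⁻¹ * g (M.D.overNext M.r)) =
          R x * s + b x * t := by
        rw [← hωo] at d1
        have e2 : (b x + R x) * (x * s * h₁ M.r + t * h₁ (M.D.underNext M.l)) =
            x * (R x * s + b x * t) := by
          linear_combination (x * s) * s3 + t * s2
        rw [← d1] at e2
        have e3 : x * ((b x + R x) * ((x ^ (-k (M.D.overNext M.r)))⁻¹ * g (M.D.overNext M.r))) =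
            x * (R x * s + b x * t) := by
          rw [← e2]
          ring
        exact mul_left_cancel₀ hx' e3
      refine e1.trans ?_
      have e4 : x⁻¹ * (x * b x) = b x := by field_simp
      rw [e4]
    · show (b x + R x) * ((x ^ (-k M.l))⁻¹ * g M.l) = x * b x * s + L x * t
      rw [hωl]
      have e2 : (b x + R x) * (x * s * h₀ M.r + t * h₀ (M.D.underNext M.l)) =
          x * b x * s + L x * t := by
        linear_combination (x * s) * r3 + t * r2
      rw [← d0] at e2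
      rw [← e2]
      ring

end Pool.Agent.Helper52.PG
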