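import Pool.Agent.Helper52.PG.Goals

/-!
PROJECT C2, target (a), part IV: values.
-/

namespace Pool.Agent.Helper52.PG

open Pool.Agent.Helper36.SC Pool.Agent.Helper37.Arb Pool.Agent.Helper52.C2 Pool.Agent.Helper99.PG
open LaurentPolynomial

theorem evInv : GoalEvInv := by
  intro f x
  unfold ev
  rw [Finsupp.sum, Finsupp.sum]
  refine Finset.sum_bij' (fun n _ => -n) (fun n _ => -n) ?_ ?_ ?_ ?_ ?_
  · intro n hn
    simpa using hn
  · intro n hn
    simpa using hn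
  · intro n _; ring
  · intro n _; ring
  · intro n _
    rw [invert_apply, zpow_neg, inv_zpow, inv_inv]

theorem vals : GoalVals := by
  intro hEv hInv
  have key : ∀ x : ℝ, 0 < x → ∃ φ : ℝ[T;T⁻¹] →+* ℝ, (∀ f, ev f x = φ f) ∧ ∀ n : ℤ,
      φ (T n) = x ^ n := by
    intro x hx
    obtain ⟨φ, h1, h2⟩ := hEv x hx
    exact ⟨φ, fun f => (h1 f).symm, h2⟩
  have rel : ∀ (S : Tg) (x : ℝ), 0 < x → ev S.L x - ev S.R x = (1 - x) * ev S.F x := by
    intro S x hx
    obtain ⟨φ, h1, h2⟩ := key x hx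
    have := congrArg φ S.rel
    rw [map_mul, map_sub, map_sub, map_one, h2, zpow_one] at this
    rw [h1, h1, h1, ← this]
    ring
  refine ⟨?_, ?_, ?_, ?_, ?_, ?_, ?_⟩
  · intro x hx
    refine ⟨?_, ?_, ?_, rel _ x hx⟩
    · obtain ⟨φ, h1, h2⟩ := key x hx
      rw [h1]
      show 0 < φ 1
      rw [map_one]; exact one_pos
    · obtain ⟨φ, h1, h2⟩ := key x hx
      rw [h1]
      show 0 < φ (T 1)
      rw [h2, zpow_one]; exact hx
    · obtain ⟨φ, h1, h2⟩ := key x hx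
      rw [h1]
      have : (U 1).F = 1 := by
        show geo 1 = 1
        unfold geo
        simp
      rw [this, map_one]; exact one_pos
  · intro S S' hS hS' x hx
    obtain ⟨a1, a2, a3, -⟩ := hS x hx
    obtain ⟨b1, b2, b3, -⟩ := hS' x hx
    refine ⟨?_, ?_, ?_, rel _ x hx⟩
    · obtain ⟨φ, h1, h2⟩ := key x hx
      rw [h1] at a1 b1 ⊢
      show 0 < φ (S.L * S'.L)
      rw [map_mul]; exact mul_pos a1 b1
    · obtain ⟨φ, h1, h2⟩ := key x hx
      rw [h1] at a2 b2 ⊢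
      show 0 < φ (S.R * S'.R)
      rw [map_mul]; exact mul_pos a2 b2
    · obtain ⟨φ, h1, h2⟩ := key x hx
      rw [h1] at a1 a2 a3 b1 b2 b3 ⊢
      show 0 < φ (S.R * S'.F + S.F * S'.L)
      rw [map_add, map_mul, map_mul]; positivity
  · intro A B S hP hS x hx
    obtain ⟨a1, a2⟩ := hP x hx
    obtain ⟨b1, b2, b3, -⟩ := hS x hx
    refine ⟨?_, ?_, ?_, rel _ x hx⟩
    · obtain ⟨φ, h1, h2⟩ := key x hx
      rw [h1] at a1 a2 b1 b2 b3 ⊢
      show 0 < φ (B * S.L + A * S.F)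
      rw [map_add, map_mul, map_mul]; positivity
    · obtain ⟨φ, h1, h2⟩ := key x hx
      rw [h1] at a1 a2 b1 b2 b3 ⊢
      show 0 < φ (B * S.R + A * S.F)
      rw [map_add, map_mul, map_mul]; positivity
    · obtain ⟨φ, h1, h2⟩ := key x hx
      rw [h1] at a1 a2 b1 b2 b3 ⊢
      show 0 < φ (B * S.F)
      rw [map_mul]; positivity
  · intro S hS x hx
    obtain ⟨a1, a2, a3, -⟩ := hS x⁻¹ (inv_pos.2 hx)
    refine ⟨?_, ?_, ?_, rel _ x hx⟩
    · show 0 < ev (invert S.R) x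
      rw [hInv]; exact a2
    · show 0 < ev (invert S.L) x
      rw [hInv]; exact a1
    · rw [← hInv] at a3
      obtain ⟨φ, h1, h2⟩ := key x hx
      rw [h1] at a3 ⊢
      show 0 < φ (T (-1) * invert S.F)
      rw [map_mul, h2]
      exact mul_pos (zpow_pos hx _) a3
  · intro S S' hS hS' x hx
    obtain ⟨a1, a2, a3, -⟩ := hS x hx
    obtain ⟨b1, b2, b3, -⟩ := hS' x hx
    obtain ⟨φ, h1, h2⟩ := key x hx
    rw [h1] at a1 a2 a3 b1 b2 b3
    rw [h1, h1]
    refine ⟨?_, ?_⟩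
    · show 0 < φ (S.R * S'.F + S.F * S'.L)
      rw [map_add, map_mul, map_mul]; positivity
    · rw [map_mul]; positivity
  · intro A B A' B' hP hP' x hx
    obtain ⟨a1, a2⟩ := hP x hx
    obtain ⟨b1, b2⟩ := hP' x hx
    obtain ⟨φ, h1, h2⟩ := key x hx
    rw [h1] at a1 a2 b1 b2
    rw [h1, h1]
    refine ⟨?_, ?_⟩
    · rw [map_add, map_mul, map_mul]; positivity
    · rw [map_mul]; positivity
  · intro A B hP x hx
    obtain ⟨a1, a2⟩ := hP x⁻¹ (inv_pos.2 hx)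
    rw [hInv, hInv]
    exact ⟨a2, a1⟩

end Pool.Agent.Helper52.PG
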