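import Pool.Agent.Helper52.PG.Final
import Pool.Agent.Helper52.PG.FacOps
import Pool.Agent.Helper52.PG.TurnFlip
import Pool.Agent.Helper52.PG.ValsP
import Pool.Agent.Helper52.C2.Main
import Pool.Agent.Helper60.LZ.R4
import Pool.Agent.Helper36.PG.StarGood
import Pool.Agent.Helper49.PG.EV
import Pool.Agent.Helper64.PG.NoGap
import Pool.Agent.Helper68.SK.All
import Pool.Agent.Helper81.PG.FF
import Pool.Agent.Helper82.PG.IdxClose
import Pool.Agent.Helper86.PG.REVPAIR
import Pool.Agent.Helper87.PG.Cut
import Pool.Agent.Helper90.PG.CoefM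

/-!
PROJECT C2, target (a), part V: assembly (the fill theorem of parts I - III is a hypothesis).
-/

namespace Pool.Agent.Helper52.PG

open Pool.Agent Pool.Agent.Helper52.C2 Pool.Agent.Helper99.PG

theorem okAll (hrev : GoalRevHH) (hFill : FillAll) {s : Bool} (t : Tm s) (ht : Fine t) : Ok t :=
  have h := opsAll (mt1' (Helper60.LZ.r4 Helper67.LZ.kap))
  have hr := hrev Helper33.C2.goalPre Helper24.C2.opMap
  good_class Helper49.PG.evHom evInv vals Helper95.C2.cross hr h.1 h.2.1
    (Helper86.PG.revPair Helper95.C2.shift hr h.2.2).2 Helper86.PG.dec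
    (Helper36.PG.starGood Helper68.SK.starPair) rTurn rFlip Helper82.PG.idx hFill t ht

theorem finalAll (hrev : GoalRevHH) (hFill : FillAll) {s : Bool} (t : Tm s) (ht : Fine t)
    (u : t.diag.V) : Concl (t.diag.D.alexander u) :=
  final_of Helper49.PG.evHom Helper90.PG.coefM Helper82.PG.closeM Helper95.C2.cross
    (Helper8.C2.goalLc Helper33.C2.goalPre Helper24.C2.opTwo Helper95.C2.cross)
    (Helper64.PG.noGap Helper33.C2.goalPre Helper95.C2.cross) t (okAll hrev hFill t ht) u

theorem planarAll {s : Bool} (t : Tm s) : t.diag.D.Connected ∧ t.diag.D.Planar :=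
  planar_of facOps (Helper81.PG.facFill Helper87.PG.goalTypes
    (Helper87.PG.goalCutFn Helper87.PG.goalTypes) Helper87.PG.goalCutConn) t

end Pool.Agent.Helper52.PG
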