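import Pool.Agent.Helper52.PG.Goals
import Pool.Agent.Helper12.Arb.Mat
import Pool.Agent.Helper94.Arb.Detblock
import Pool.Agent.Helper91.Arb.Rbeside

/-!
PROJECT C2, target (a), part IV: responses of the operations on marked diagrams (adapted from
the files of Helper82, Helper91, Helper24, Helper86).
-/

namespace Pool.Agent.Helper52.PG

open Pool.Agent.Helper36.SC Pool.Agent.Helper37.Arb Polynomial Pool.Agent.Helper12.Arb
open Pool.Agent.Helper94.Arb

theorem rCross : GoalRCross := by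
  intro x hx
  have hx1 : (1 : ℝ) + x ≠ 0 := by positivity
  have hM : ∀ v w : Unit, openMat true mcross x v w = 1 + x := by
    intro v w
    simp [openMat, lap, stepU, stepO, fwd, bwd, mcross, Matrix.single]
    change (0 : ℝ) + 1 + x = 1 + x
    ring
  refine ⟨?_, ?_⟩
  · have h1 : (openMat true mcross x).det = 1 + x :=
      (Matrix.det_unique (n := Unit) (openMat true mcross x)).trans (hM _ _)
    rw [h1]
    simp
  · intro s t
    refine ⟨fun _ => (s + x * t) / (1 + x), ?_, ?_, ?_⟩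
    · funext v
      have h2 : (openMat true mcross x).mulVec
          (fun _ => (s + x * t) / (1 + x)) v = (1 + x) * ((s + x * t) / (1 + x)) := by
        change ∑ w : Unit, openMat true mcross x v w * ((s + x * t) / (1 + x)) = _
        rw [Fintype.sum_unique, hM]
      rw [h2]
      change _ = (Pi.single () ((if true = true then (1 : ℝ) else x) * s) +
        Pi.single () ((if true = true then x else (1 : ℝ)) * t) : Unit → ℝ) v
      have hv : v = () := rfl
      rw [hv]
      simp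
      field_simp
    · field_simp
    · field_simp

theorem rStack : GoalRStack := by
  intro S T j₁ j₂ L₁ R₁ b₁ L₂ R₂ b₂ hV1 hV2 hS hT x hx
  obtain ⟨hL1, hR1, hb1, hr1⟩ := hV1 x hx
  obtain ⟨hL2, hR2, hb2, hr2⟩ := hV2 x hx
  obtain ⟨hSd, hSs⟩ := hS x hx
  obtain ⟨hTd, hTs⟩ := hT x hx
  have hc1 : 0 < b₁ x + R₁ x := by positivity
  have hc2 : 0 < b₂ x + R₂ x := by positivity
  have hc : 0 < (R₁ x * b₂ x + b₁ x * L₂ x) + R₁ x * R₂ x := by positivity
  have hLe1 : L₁ x = R₁ x + (1 - x) * b₁ x := by linarith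
  have hLe2 : L₂ x = R₂ x + (1 - x) * b₂ x := by linarith
  have hblock := stack_aux S T x
  constructor
  · obtain ⟨h₁, e1, -, e1r⟩ := hSs 1 0
    obtain ⟨h₂, e2, e2r, -⟩ := hTs 0 1
    rw [mul_zero, Pi.single_zero, add_zero, mul_one] at e1
    rw [mul_zero, Pi.single_zero, zero_add, mul_one] at e2
    have hd1 : (openMat true S x).det ≠ 0 := by
      rw [hSd]; positivity
    have hd2 : (openMat true T x).det ≠ 0 := by
      rw [hTd]; positivity
    have key := detBlock (openMat true S x) (openMat true T x)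
      S.l S.r (T.D.overNext T.r) (T.D.underNext T.l)
      _ _ h₁ h₂ hd1 hd2 e1 e2
    have e3 : (openMat true (mstack S T) x).det = _ :=
      (congrArg Matrix.det hblock).trans key
    rw [e3, hSd, hTd]
    have f1 : h₁ S.r = b₁ x / (b₁ x + R₁ x) := by
      rw [eq_div_iff hc1.ne']; linarith
    have f2 : h₂ (T.D.underNext T.l) = x * b₂ x / (b₂ x + R₂ x) := by
      rw [eq_div_iff hc2.ne']; linarith
    rw [f1, f2, zpow_add₀ hx.ne']
    show _ = x ^ j₁ * x ^ j₂ * ((R₁ x * b₂ x + b₁ x * L₂ x) + R₁ x * R₂ x)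
    rw [hLe2]
    field_simp
    ring
  · intro s t
    obtain ⟨g, hg⟩ : ∃ g : ℝ, ((R₁ x * b₂ x + b₁ x * L₂ x) + R₁ x * R₂ x) * g =
        (b₁ x + R₁ x) * L₂ x * s + x * b₂ x * R₁ x * t :=
      ⟨_, mul_div_cancel₀ _ hc.ne'⟩
    obtain ⟨m, hm⟩ : ∃ m : ℝ, ((R₁ x * b₂ x + b₁ x * L₂ x) + R₁ x * R₂ x) * m =
        b₁ x * L₂ x * s + (b₂ x + R₂ x) * R₁ x * t :=
      ⟨_, mul_div_cancel₀ _ hc.ne'⟩
    obtain ⟨h₁, e1, e1l, e1r⟩ := hSs g t
    obtain ⟨h₂, e2, e2l, e2r⟩ := hTs s m
    rw [hLe2] at hg hm hc e2l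
    rw [hLe1] at e1l
    have v1 : h₁ S.r = m := by
      have : (b₁ x + R₁ x) * h₁ S.r = (b₁ x + R₁ x) * m := by
        rw [e1r]
        apply mul_left_cancel₀ hc.ne'
        linear_combination (b₁ x) * hg - (b₁ x + R₁ x) * hm
      exact mul_left_cancel₀ hc1.ne' this
    have v2 : h₂ (T.D.underNext T.l) = g := by
      have : (b₂ x + R₂ x) * h₂ (T.D.underNext T.l) = (b₂ x + R₂ x) * g := by
        rw [e2l]
        apply mul_left_cancel₀ hc.ne'
        linear_combination (x * b₂ x) * hm - (b₂ x + R₂ x) * hg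
      exact mul_left_cancel₀ hc2.ne' this
    refine ⟨Sum.elim h₁ h₂, ?_, ?_, ?_⟩
    · have e4 : (openMat true (mstack S T) x).mulVec (Sum.elim h₁ h₂) =
          (Matrix.fromBlocks (openMat true S x)
            (-Matrix.single S.l (T.D.underNext T.l) (fwd S.D x S.l))
            (-Matrix.single (T.D.overNext T.r) S.r
              (bwd T.D x (T.D.overNext T.r)))
            (openMat true T x)).mulVec (Sum.elim h₁ h₂) :=
        congrArg (fun A : Matrix (S.V ⊕ T.V) (S.V ⊕ T.V) ℝ =>
          A.mulVec (Sum.elim h₁ h₂)) hblock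
      refine e4.trans ?_
      rw [Matrix.fromBlocks_mulVec, Sum.elim_comp_inl, Sum.elim_comp_inr, e1, e2,
        Matrix.neg_mulVec, Matrix.neg_mulVec, Matrix.single_mulVec, Matrix.single_mulVec, v1, v2]
      have hov : (mstack S T).D.overNext (mstack S T).r =
          Sum.inl (S.D.overNext S.r) := by
        change (Equiv.sumCongr S.D.overNext T.D.overNext)
          (Equiv.swap (Sum.inl S.r) (Sum.inr T.r) (Sum.inr T.r)) = _
        rw [Equiv.swap_apply_right]
        rfl
      rw [hov]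
      show _ = (Pi.single (Sum.inr T.l) (fwd T.D x T.l * s) +
        Pi.single (Sum.inl (S.D.overNext S.r))
          (bwd S.D x (S.D.overNext S.r) * t) : S.V ⊕ T.V → ℝ)
      funext z
      rcases z with z | z
      · simp only [Sum.elim_inl, Pi.add_apply, Pi.neg_apply, Pi.single_apply,
          Function.update_apply, Pi.zero_apply, Sum.inl.injEq, reduceCtorEq, if_false, zero_add]
        ring
      · simp only [Sum.elim_inr, Pi.add_apply, Pi.neg_apply, Pi.single_apply,
          Function.update_apply, Pi.zero_apply, Sum.inr.injEq, reduceCtorEq, if_false, add_zero]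
        ring
    · have hun : (mstack S T).D.underNext (mstack S T).l =
          Sum.inl (S.D.underNext S.l) := by
        change (Equiv.sumCongr S.D.underNext T.D.underNext)
          (Equiv.swap (Sum.inl S.l) (Sum.inr T.l) (Sum.inr T.l)) = _
        rw [Equiv.swap_apply_right]
        rfl
      rw [hun]
      show ((R₁ x * b₂ x + b₁ x * L₂ x) + R₁ x * R₂ x) *
        h₁ (S.D.underNext S.l) = (L₁ x * L₂ x) * s +
          x * (R₁ x * b₂ x + b₁ x * L₂ x) * t
      rw [hLe1, hLe2]
      apply mul_left_cancel₀ hc1.ne'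
      linear_combination ((R₁ x * b₂ x + b₁ x * (R₂ x + (1 - x) * b₂ x)) + R₁ x * R₂ x) * e1l
        + (R₁ x + (1 - x) * b₁ x) * hg
    · show ((R₁ x * b₂ x + b₁ x * L₂ x) + R₁ x * R₂ x) *
        h₂ T.r = (R₁ x * b₂ x + b₁ x * L₂ x) * s + (R₁ x * R₂ x) * t
      rw [hLe2]
      apply mul_left_cancel₀ hc2.ne'
      linear_combination ((R₁ x * b₂ x + b₁ x * (R₂ x + (1 - x) * b₂ x)) + R₁ x * R₂ x) * e2r
        + (R₂ x) * hm

theorem rBeside : GoalRBeside := by
  intro P T j₁ j₂ A B L R b hAB hV hP hT x hx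
  obtain ⟨hne, hP⟩ := hP
  obtain ⟨hdP, hsP⟩ := hP x hx
  obtain ⟨hdT, hsT⟩ := hT x hx
  obtain ⟨hA, hB⟩ := hAB x hx
  obtain ⟨hL, hR, hb, hrel⟩ := hV x hx
  have hx0 : x ≠ 0 := hx.ne'
  have hc : 0 < A x + x * B x := by positivity
  have ha : 0 < b x + R x := by positivity
  have ha' : 0 < B x * b x + (B x * R x + A x * b x) := by positivity
  have hM : openMat true (mbeside P T) x =
      Matrix.fromBlocks (openMat false P x)
        (-Matrix.single P.r (T.D.underNext T.l) (fwd P.D x P.r))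
        (-Matrix.single T.l (P.D.underNext P.r) (fwd T.D x T.l))
        (openMat true T x) := beside_aux P T x hne
  refine ⟨?_, ?_⟩
  · obtain ⟨h₁, e₁, -, v₁⟩ := hsP 0 1
    obtain ⟨h₂, e₂, v₂, -⟩ := hsT 1 0
    have hdet := detBlock (openMat false P x) (openMat true T x) P.r
      (P.D.underNext P.r) T.l (T.D.underNext T.l)
      (fwd P.D x P.r) (fwd T.D x T.l) h₁ h₂
      (by rw [hdP]; positivity) (by rw [hdT]; positivity)
      (by rw [e₁]; simp) (by rw [e₂]; simp)
    have hgoal : (openMat true (mbeside P T) x).det =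
        (openMat false P x).det * (openMat true T x).det *
          (1 - h₁ (P.D.underNext P.r) * h₂ (T.D.underNext T.l)) := by
      rw [hM]
      exact hdet
    rw [hgoal, hdP, hdT]
    have w₁ : h₁ (P.D.underNext P.r) = A x / (A x + x * B x) := by
      rw [eq_div_iff hc.ne']
      linarith
    have w₂ : h₂ (T.D.underNext T.l) = L x / (b x + R x) := by
      rw [eq_div_iff ha.ne']
      linarith
    rw [w₁, w₂, zpow_add₀ hx0, zpow_add₀ hx0, zpow_one]
    field_simp
    have hLe : L x = R x + (1 - x) * b x := by linarith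
    rw [hLe]
    ring
  · intro s t
    set a' := B x * b x + (B x * R x + A x * b x) with ha'def
    set g := (B x * L x * s + b x * (A x + x * B x) * t) / a' with hg
    set m := (B x * (b x + R x) * s + A x * b x * t) / a' with hm
    have hLe : L x = R x + (1 - x) * b x := by linarith
    obtain ⟨h₁, e₁, u₁, v₁⟩ := hsP s g
    obtain ⟨h₂, e₂, u₂, v₂⟩ := hsT m t
    have hgm : g * a' = B x * L x * s + b x * (A x + x * B x) * t := by
      rw [hg]; field_simp
    have hmm : m * a' = B x * (b x + R x) * s + A x * b x * t := by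
      rw [hm]; field_simp
    have w₁ : h₁ (P.D.underNext P.r) = m := by
      have h3 : (A x + x * B x) * a' * h₁ (P.D.underNext P.r)
          = (A x + x * B x) * a' * m := by
        have : (A x + x * B x) * a' * h₁ (P.D.underNext P.r) =
            a' * ((A x + x * B x) * h₁ (P.D.underNext P.r)) := by ring
        rw [this, v₁]
        have e3 : a' * (x * B x * s + A x * g) = x * B x * s * a' + A x * (g * a') := by ring
        have e4 : (A x + x * B x) * a' * m = (A x + x * B x) * (m * a') := by ring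
        rw [e3, e4, hgm, hmm, ha'def, hLe]
        ring
      exact mul_left_cancel₀ (mul_pos hc ha').ne' h3
    have w₂ : h₂ (T.D.underNext T.l) = g := by
      have h3 : (b x + R x) * a' * h₂ (T.D.underNext T.l)
          = (b x + R x) * a' * g := by
        have : (b x + R x) * a' * h₂ (T.D.underNext T.l) =
            a' * ((b x + R x) * h₂ (T.D.underNext T.l)) := by ring
        rw [this, u₂]
        have e3 : a' * (L x * m + x * b x * t) = L x * (m * a') + x * b x * t * a' := by ring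
        have e4 : (b x + R x) * a' * g = (b x + R x) * (g * a') := by ring
        rw [e3, e4, hgm, hmm, ha'def, hLe]
        ring
      exact mul_left_cancel₀ (mul_pos ha ha').ne' h3
    refine ⟨Sum.elim h₁ h₂, ?_, ?_, ?_⟩
    · rw [hM]
      refine (Pool.Agent.Helper91.Arb.block_mulVec (openMat false P x) (openMat true T x) P.r
        (P.D.underNext P.r) T.l (T.D.underNext T.l)
        (fwd P.D x P.r) (fwd T.D x T.l) h₁ h₂).trans ?_
      rw [w₁, w₂, e₁, e₂]
      change _ = (Pi.single (Sum.inl P.l) (fwd P.D x P.l * s) +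
        Pi.single (Sum.inr (T.D.overNext T.r))
          (bwd T.D x (T.D.overNext T.r) * t) : P.V ⊕ T.V → ℝ)
      funext u
      rcases u with u | u
      · simp [Pi.single_apply]
      · simp [Pi.single_apply]
    · have hun : (mbeside P T).D.underNext (mbeside P T).l =
          Sum.inl (P.D.underNext P.l) := by
        change (Equiv.sumCongr P.D.underNext T.D.underNext)
          (Equiv.swap (Sum.inl P.r) (Sum.inr T.l) (Sum.inl P.l)) = _
        rw [Equiv.swap_apply_of_ne_of_ne (by simpa using hne) (by simp)]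
        rfl
      rw [hun]
      change a' * h₁ (P.D.underNext P.l) = _
      have h3 : (A x + x * B x) * (a' * h₁ (P.D.underNext P.l)) =
          (A x + x * B x) * ((B x * L x + A x * b x) * s + x * (B x * b x) * t) := by
        have : (A x + x * B x) * (a' * h₁ (P.D.underNext P.l)) =
            a' * ((A x + x * B x) * h₁ (P.D.underNext P.l)) := by ring
        rw [this, u₁]
        have e3 : a' * (A x * s + x * B x * g) = A x * s * a' + x * B x * (g * a') := by ring
        rw [e3, hgm, ha'def, hLe]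
        ring
      exact mul_left_cancel₀ hc.ne' h3
    · change a' * h₂ T.r = _
      have h3 : (b x + R x) * (a' * h₂ T.r) =
          (b x + R x) * (B x * b x * s + (B x * R x + A x * b x) * t) := by
        have : (b x + R x) * (a' * h₂ T.r) = a' * ((b x + R x) * h₂ T.r) := by ring
        rw [this, v₂]
        have e3 : a' * (b x * m + R x * t) = b x * (m * a') + R x * t * a' := by ring
        rw [e3, hmm, ha'def]
        ring
      exact mul_left_cancel₀ ha.ne' h3

theorem rOpp : GoalROpp := by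
  intro S T j₁ j₂ L₁ R₁ b₁ L₂ R₂ b₂ hV1 hV2 hS hT
  refine ⟨fun h => Sum.inl_ne_inr h, ?_⟩
  intro x hx
  obtain ⟨hL1, hR1, hb1, hr1⟩ := hV1 x hx
  obtain ⟨hL2, hR2, hb2, hr2⟩ := hV2 x hx
  obtain ⟨hSd, hSs⟩ := hS x hx
  obtain ⟨hTd, hTs⟩ := hT x hx
  have hc1 : 0 < b₁ x + R₁ x := by positivity
  have hc2 : 0 < b₂ x + R₂ x := by positivity
  have hc : 0 < (R₁ x * b₂ x + b₁ x * L₂ x) + x * (b₁ x * b₂ x) := by positivity
  have hLe1 : L₁ x = R₁ x + (1 - x) * b₁ x := by linarith
  have hLe2 : L₂ x = R₂ x + (1 - x) * b₂ x := by linarith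
  have hblock := opposite_aux S T x
  constructor
  · obtain ⟨h₁, e1, -, e1r⟩ := hSs 0 1
    obtain ⟨h₂, e2, -, e2r⟩ := hTs 0 1
    rw [mul_zero, Pi.single_zero, zero_add, mul_one] at e1
    rw [mul_zero, Pi.single_zero, zero_add, mul_one] at e2
    have hd1 : (openMat true S x).det ≠ 0 := by
      rw [hSd]; positivity
    have hd2 : (openMat true T x).det ≠ 0 := by
      rw [hTd]; positivity
    have key := detBlock (openMat true S x) (openMat true T x)
      (S.D.overNext S.r) S.r (T.D.overNext T.r) T.r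
      _ _ h₁ h₂ hd1 hd2 e1 e2
    have e3 : (openMat false (mopp S T) x).det = _ :=
      (congrArg Matrix.det hblock).trans key
    rw [e3, hSd, hTd]
    have f1 : h₁ S.r = R₁ x / (b₁ x + R₁ x) := by
      rw [eq_div_iff hc1.ne']; linarith
    have f2 : h₂ T.r = R₂ x / (b₂ x + R₂ x) := by
      rw [eq_div_iff hc2.ne']; linarith
    rw [f1, f2, zpow_add₀ hx.ne']
    show _ = x ^ j₁ * x ^ j₂ * ((R₁ x * b₂ x + b₁ x * L₂ x) + x * (b₁ x * b₂ x))
    rw [hLe2]
    field_simp
    ring
  · intro s t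
    obtain ⟨m₁, hm₁⟩ : ∃ m : ℝ, ((R₁ x * b₂ x + b₁ x * L₂ x) + x * (b₁ x * b₂ x)) * m =
        (b₂ x + R₂ x) * b₁ x * s + R₁ x * b₂ x * t :=
      ⟨_, mul_div_cancel₀ _ hc.ne'⟩
    obtain ⟨m₂, hm₂⟩ : ∃ m : ℝ, ((R₁ x * b₂ x + b₁ x * L₂ x) + x * (b₁ x * b₂ x)) * m =
        (b₁ x + R₁ x) * b₂ x * t + R₂ x * b₁ x * s :=
      ⟨_, mul_div_cancel₀ _ hc.ne'⟩
    obtain ⟨h₁, e1, e1l, e1r⟩ := hSs s m₂
    obtain ⟨h₂, e2, e2l, e2r⟩ := hTs t m₁
    rw [hLe2] at hm₁ hm₂
    rw [hLe2] at hc
    have v1 : h₁ S.r = m₁ := by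
      have : (b₁ x + R₁ x) * h₁ S.r = (b₁ x + R₁ x) * m₁ := by
        rw [e1r]
        apply mul_left_cancel₀ hc.ne'
        linear_combination (R₁ x) * hm₂ - (b₁ x + R₁ x) * hm₁
      exact mul_left_cancel₀ hc1.ne' this
    have v2 : h₂ T.r = m₂ := by
      have : (b₂ x + R₂ x) * h₂ T.r = (b₂ x + R₂ x) * m₂ := by
        rw [e2r]
        apply mul_left_cancel₀ hc.ne'
        linear_combination (R₂ x) * hm₁ - (b₂ x + R₂ x) * hm₂
      exact mul_left_cancel₀ hc2.ne' this
    refine ⟨Sum.elim h₁ h₂, ?_, ?_, ?_⟩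
    · have e4 : (openMat false (mopp S T) x).mulVec (Sum.elim h₁ h₂) =
          (Matrix.fromBlocks (openMat true S x)
            (-Matrix.single (S.D.overNext S.r) T.r
              (bwd S.D x (S.D.overNext S.r)))
            (-Matrix.single (T.D.overNext T.r) S.r
              (bwd T.D x (T.D.overNext T.r)))
            (openMat true T x)).mulVec (Sum.elim h₁ h₂) :=
        congrArg (fun A : Matrix (S.V ⊕ T.V) (S.V ⊕ T.V) ℝ =>
          A.mulVec (Sum.elim h₁ h₂)) hblock
      refine e4.trans ?_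
      rw [Matrix.fromBlocks_mulVec, Sum.elim_comp_inl, Sum.elim_comp_inr, e1, e2,
        Matrix.neg_mulVec, Matrix.neg_mulVec, Matrix.single_mulVec, Matrix.single_mulVec, v1, v2]
      show _ = (Pi.single (Sum.inl S.l) (fwd S.D x S.l * s) +
        Pi.single (Sum.inr T.l) (fwd T.D x T.l * t) : S.V ⊕ T.V → ℝ)
      funext z
      rcases z with z | z
      · simp only [Sum.elim_inl, Pi.add_apply, Pi.neg_apply, Pi.single_apply,
          Function.update_apply, Pi.zero_apply, Sum.inl.injEq, reduceCtorEq, if_false, add_zero]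
        ring
      · simp only [Sum.elim_inr, Pi.add_apply, Pi.neg_apply, Pi.single_apply,
          Function.update_apply, Pi.zero_apply, Sum.inr.injEq, reduceCtorEq, if_false, zero_add]
        ring
    · show ((R₁ x * b₂ x + b₁ x * L₂ x) + x * (b₁ x * b₂ x)) *
        h₁ (S.D.underNext S.l) = (R₁ x * b₂ x + b₁ x * L₂ x) * s +
          x * (b₁ x * b₂ x) * t
      rw [hLe1] at e1l
      rw [hLe2]
      apply mul_left_cancel₀ hc1.ne'
      linear_combination ((R₁ x * b₂ x + b₁ x * (R₂ x + (1 - x) * b₂ x)) +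
        x * (b₁ x * b₂ x)) * e1l + (x * b₁ x) * hm₂
    · show ((R₁ x * b₂ x + b₁ x * L₂ x) + x * (b₁ x * b₂ x)) *
        h₂ (T.D.underNext T.l) = x * (b₁ x * b₂ x) * s +
          (R₁ x * b₂ x + b₁ x * L₂ x) * t
      rw [hLe2] at e2l
      rw [hLe2]
      apply mul_left_cancel₀ hc2.ne'
      linear_combination ((R₁ x * b₂ x + b₁ x * (R₂ x + (1 - x) * b₂ x)) +
        x * (b₁ x * b₂ x)) * e2l + (x * b₂ x) * hm₁

theorem rSum : GoalRSum := by
  intro P Q j₁ j₂ A₁ B₁ A₂ B₂ hP0 hQ0 hP hQ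
  obtain ⟨hPlr, hP⟩ := hP
  obtain ⟨hQlr, hQ⟩ := hQ
  refine ⟨fun h => Sum.inl_ne_inr h, ?_⟩
  intro x hx
  obtain ⟨hA1, hB1⟩ := hP0 x hx
  obtain ⟨hA2, hB2⟩ := hQ0 x hx
  obtain ⟨hPd, hPs⟩ := hP x hx
  obtain ⟨hQd, hQs⟩ := hQ x hx
  have hc1 : 0 < A₁ x + x * B₁ x := by positivity
  have hc2 : 0 < A₂ x + x * B₂ x := by positivity
  have hc : 0 < (A₁ x * B₂ x + B₁ x * A₂ x) + x * (B₁ x * B₂ x) := by positivity
  have hblock := sum_aux P Q x hPlr hQlr
  constructor
  · obtain ⟨h₁, e1, -, e1r⟩ := hPs 0 1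
    obtain ⟨h₂, e2, e2l, -⟩ := hQs 1 0
    rw [mul_zero, Pi.single_zero, zero_add, mul_one] at e1
    rw [mul_zero, Pi.single_zero, add_zero, mul_one] at e2
    have hd1 : (openMat false P x).det ≠ 0 := by
      rw [hPd]; positivity
    have hd2 : (openMat false Q x).det ≠ 0 := by
      rw [hQd]; positivity
    have key := detBlock (openMat false P x) (openMat false Q x) P.r
      (P.D.underNext P.r) Q.l (Q.D.underNext Q.l) _ _ h₁ h₂ hd1 hd2 e1 e2
    have e3 : (openMat false (mbeside P Q) x).det = _ := (congrArg Matrix.det hblock).trans key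
    rw [e3, hPd, hQd]
    have f1 : h₁ (P.D.underNext P.r) = A₁ x / (A₁ x + x * B₁ x) := by
      rw [eq_div_iff hc1.ne']; linarith
    have f2 : h₂ (Q.D.underNext Q.l) = A₂ x / (A₂ x + x * B₂ x) := by
      rw [eq_div_iff hc2.ne']; linarith
    rw [f1, f2, zpow_add₀ hx.ne', zpow_add₀ hx.ne', zpow_one]
    field_simp
    ring
  · intro s t
    obtain ⟨g, hg⟩ : ∃ g : ℝ, ((A₁ x * B₂ x + B₁ x * A₂ x) + x * (B₁ x * B₂ x)) * g =
        A₂ x * B₁ x * s + (A₁ x + x * B₁ x) * B₂ x * t :=
      ⟨(A₂ x * B₁ x * s + (A₁ x + x * B₁ x) * B₂ x * t) /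
        ((A₁ x * B₂ x + B₁ x * A₂ x) + x * (B₁ x * B₂ x)), mul_div_cancel₀ _ hc.ne'⟩
    obtain ⟨m, hm⟩ : ∃ m : ℝ, ((A₁ x * B₂ x + B₁ x * A₂ x) + x * (B₁ x * B₂ x)) * m =
        (A₂ x + x * B₂ x) * B₁ x * s + A₁ x * B₂ x * t :=
      ⟨((A₂ x + x * B₂ x) * B₁ x * s + A₁ x * B₂ x * t) /
        ((A₁ x * B₂ x + B₁ x * A₂ x) + x * (B₁ x * B₂ x)), mul_div_cancel₀ _ hc.ne'⟩
    obtain ⟨h₁, e1, e1l, e1r⟩ := hPs s g
    obtain ⟨h₂, e2, e2l, e2r⟩ := hQs m t
    -- the values at the two glued edges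
    have v1 : h₁ (P.D.underNext P.r) = m := by
      have : (A₁ x + x * B₁ x) * h₁ (P.D.underNext P.r) =
          (A₁ x + x * B₁ x) * m := by
        rw [e1r]
        apply mul_left_cancel₀ hc.ne'
        linear_combination (A₁ x) * hg - (A₁ x + x * B₁ x) * hm
      exact mul_left_cancel₀ hc1.ne' this
    have v2 : h₂ (Q.D.underNext Q.l) = g := by
      have : (A₂ x + x * B₂ x) * h₂ (Q.D.underNext Q.l) =
          (A₂ x + x * B₂ x) * g := by
        rw [e2l]
        apply mul_left_cancel₀ hc.ne'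
        linear_combination (A₂ x) * hm - (A₂ x + x * B₂ x) * hg
      exact mul_left_cancel₀ hc2.ne' this
    have el : (mbeside P Q).D.underNext (mbeside P Q).l =
        Sum.inl (P.D.underNext P.l) := by
      show (Equiv.sumCongr P.D.underNext Q.D.underNext)
        (Equiv.swap (Sum.inl P.r) (Sum.inr Q.l) (Sum.inl P.l)) = _
      rw [Equiv.swap_apply_of_ne_of_ne (fun h => hPlr (Sum.inl_injective h)) Sum.inl_ne_inr]
      rfl
    have er : (mbeside P Q).D.underNext (mbeside P Q).r =
        Sum.inr (Q.D.underNext Q.r) := by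
      show (Equiv.sumCongr P.D.underNext Q.D.underNext)
        (Equiv.swap (Sum.inl P.r) (Sum.inr Q.l) (Sum.inr Q.r)) = _
      rw [Equiv.swap_apply_of_ne_of_ne Sum.inr_ne_inl (fun h => hQlr (Sum.inr_injective h).symm)]
      rfl
    refine ⟨Sum.elim h₁ h₂, ?_, ?_, ?_⟩
    · have e4 : (openMat false (mbeside P Q) x).mulVec (Sum.elim h₁ h₂) =
          (Matrix.fromBlocks (openMat false P x)
            (-Matrix.single P.r (Q.D.underNext Q.l) (fwd P.D x P.r))
            (-Matrix.single Q.l (P.D.underNext P.r) (fwd Q.D x Q.l))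
            (openMat false Q x)).mulVec (Sum.elim h₁ h₂) :=
        congrArg (fun A : Matrix (P.V ⊕ Q.V) (P.V ⊕ Q.V) ℝ =>
          A.mulVec (Sum.elim h₁ h₂)) hblock
      refine e4.trans ?_
      rw [Matrix.fromBlocks_mulVec, Sum.elim_comp_inl, Sum.elim_comp_inr, e1, e2,
        Matrix.neg_mulVec, Matrix.neg_mulVec, Matrix.single_mulVec, Matrix.single_mulVec, v1, v2]
      show _ = (Pi.single (Sum.inl P.l) (fwd P.D x P.l * s) +
        Pi.single (Sum.inr Q.r) (fwd Q.D x Q.r * t) : P.V ⊕ Q.V → ℝ)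
      funext z
      rcases z with z | z
      · simp only [Sum.elim_inl, Pi.add_apply, Pi.neg_apply]
        by_cases hz : z = P.l
        · subst hz
          simp [Pi.single_apply, Function.update_apply]
        · simp [Pi.single_apply, Function.update_apply, hz]
      · simp only [Sum.elim_inr, Pi.add_apply, Pi.neg_apply]
        by_cases hz : z = Q.r
        · subst hz
          simp [Pi.single_apply, Function.update_apply]
        · simp [Pi.single_apply, Function.update_apply, hz]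
    · rw [el]
      show ((A₁ x * B₂ x + B₁ x * A₂ x) + x * (B₁ x * B₂ x)) *
        h₁ (P.D.underNext P.l) = (A₁ x * B₂ x + B₁ x * A₂ x) * s +
          x * (B₁ x * B₂ x) * t
      apply mul_left_cancel₀ hc1.ne'
      linear_combination ((A₁ x * B₂ x + B₁ x * A₂ x) + x * (B₁ x * B₂ x)) * e1l +
        (x * B₁ x) * hg
    · rw [er]
      show ((A₁ x * B₂ x + B₁ x * A₂ x) + x * (B₁ x * B₂ x)) *
        h₂ (Q.D.underNext Q.r) = x * (B₁ x * B₂ x) * s +
          (A₁ x * B₂ x + B₁ x * A₂ x) * t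
      apply mul_left_cancel₀ hc2.ne'
      linear_combination ((A₁ x * B₂ x + B₁ x * A₂ x) + x * (B₁ x * B₂ x)) * e2r +
        (x * B₂ x) * hm

end Pool.Agent.Helper52.PG
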