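import Pool.Agent.Helper52.PG.Goals
import Pool.Agent.Helper52.PG.Resp

/-!
PROJECT C2, target (a), part V: the class of tangles (induction over the terms).
-/

namespace Pool.Agent.Helper52.PG

open Pool.Agent.Helper36.SC Pool.Agent.Helper37.Arb Pool.Agent.Helper52.C2 Pool.Agent.Helper99.PG
open LaurentPolynomial

/-- the final result of parts I - III -/
def FillAll : Prop := ∀ {V : Type} [Fintype V] [DecidableEq V] (S : Skel V) (M : V → Marked)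
  (s : V → Tg), (∀ v, ParOK (M v) (s v)) → ∃ Q, ParOK (fill S.D S.l S.r M) Q

theorem ev_mul (h : GoalEvHom) {x : ℝ} (hx : 0 < x) (f g : ℝ[T;T⁻¹]) :
    ev (f * g) x = ev f x * ev g x := by
  obtain ⟨φ, h1, -⟩ := h x hx
  rw [← h1, ← h1, ← h1, map_mul]

theorem ev_add (h : GoalEvHom) {x : ℝ} (hx : 0 < x) (f g : ℝ[T;T⁻¹]) :
    ev (f + g) x = ev f x + ev g x := by
  obtain ⟨φ, h1, -⟩ := h x hx
  rw [← h1, ← h1, ← h1, map_add]

theorem ev_one (h : GoalEvHom) {x : ℝ} (hx : 0 < x) : ev (1 : ℝ[T;T⁻¹]) x = 1 := by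
  obtain ⟨φ, h1, -⟩ := h x hx
  rw [← h1, map_one]

theorem ev_T (h : GoalEvHom) {x : ℝ} (hx : 0 < x) (n : ℤ) :
    ev (LaurentPolynomial.T n) x = x ^ n := by
  obtain ⟨φ, h1, h2⟩ := h x hx
  rw [← h1, h2]

theorem geo_one : (geo 1 : ℝ[T;T⁻¹]) = 1 := by
  have h := geo_mul 1
  unfold geo
  simp

theorem resp2_congr {M : Marked} {j : ℤ} {L R b L' R' b' : ℝ → ℝ}
    (h : ∀ x, 0 < x → L x = L' x ∧ R x = R' x ∧ b x = b' x) (H : Resp2 M j L R b) :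
    Resp2 M j L' R' b' := by
  intro x hx
  obtain ⟨h1, h2, h3⟩ := h x hx
  have := H x hx
  rw [h1, h2, h3] at this
  exact this

theorem resp1_congr {M : Marked} {j : ℤ} {a b a' b' : ℝ → ℝ}
    (h : ∀ x, 0 < x → a x = a' x ∧ b x = b' x) (H : Resp1 M j a b) :
    Resp1 M j a' b' := by
  refine ⟨H.1, fun x hx => ?_⟩
  obtain ⟨h1, h2⟩ := h x hx
  have := H.2 x hx
  rw [h1, h2] at this
  exact this

/-- what is proved by induction over the terms -/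
def Ok : ∀ {s : Bool}, Tm s → Prop
  | true, t => ∃ S, ParOK t.diag S
  | false, t => ∃ A B, AntiOK t.diag A B ∧ (HasOpp t → Dec A B) ∧ (Turned t → Star A B)

theorem good_class (hEv : GoalEvHom) (hInv : GoalEvInv) (hVals : GoalVals)
    (hCross : GoalCross) (hRev : ∀ S : Tg, S.HH1 → (rev S).HH1)
    (hMul : ∀ A B : Tg, A.HH1 → B.HH1 → (A.mul B).HH1)
    (hPair : ∀ A B : Tg, A.HH1 → B.HH1 → GoodPair ((A.mul B).F) (A.F * B.F))
    (hTurnPair : ∀ A B : ℝ[T;T⁻¹], Dec A B → GoodPair (invert B) (invert A))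
    (hDec : GoalDec)
    (hStar : ∀ A B : ℝ[T;T⁻¹], Star A B → GoodPair (invert B) (invert A))
    (hRTurn : GoalRTurn) (hRFlip : GoalRFlip) (hIdx : GoalIdx) (hFill : FillAll)
    {s : Bool} (t : Tm s) (ht : Fine t) : Ok t := by
  obtain ⟨vC, vM, vB, vR, vO, vS, vT⟩ := hVals hEv hInv
  obtain ⟨-, dSum, dL, dR⟩ := hDec hPair
  obtain ⟨iC, iM, iB, iF, iT⟩ := hIdx
  induction ht with
  | cross =>
    refine ⟨U 1, hCross, vC, ⟨0, ?_⟩, iC⟩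
    refine resp2_congr ?_ rCross
    intro x hx
    refine ⟨(ev_one hEv hx).symm, ?_, ?_⟩
    · show x = ev (LaurentPolynomial.T 1) x
      rw [ev_T hEv hx, zpow_one]
    · show 1 = ev (geo 1) x
      rw [geo_one, ev_one hEv hx]
  | stack _ _ hS hT =>
    obtain ⟨A, a1, a2, ⟨j₁, a3⟩, a4⟩ := hS
    obtain ⟨B, b1, b2, ⟨j₂, b3⟩, b4⟩ := hT
    refine ⟨A.mul B, hMul A B a1 b1, vM A B a2 b2, ⟨j₁ + j₂, ?_⟩, (iM _ _ a4 b4).1⟩
    refine resp2_congr ?_ (rStack _ _ _ _ _ _ _ _ _ _ a2 b2 a3 b3)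
    intro x hx
    refine ⟨(ev_mul hEv hx _ _).symm, (ev_mul hEv hx _ _).symm, ?_⟩
    show _ = ev (A.R * B.F + A.F * B.L) x
    rw [ev_add hEv hx, ev_mul hEv hx, ev_mul hEv hx]
  | beside _ _ hP hT =>
    obtain ⟨A, B, ⟨a1, a2, ⟨j₁, a3⟩, a4⟩, -, -⟩ := hP
    obtain ⟨S, b1, b2, ⟨j₂, b3⟩, b4⟩ := hT
    refine ⟨bes A B S, a1 S b1, vB A B S a2 b2, ⟨j₁ + j₂ + 1, ?_⟩, iB true _ _ a4 b4⟩
    refine resp2_congr ?_ (rBeside _ _ _ _ _ _ _ _ _ a2 b2 a3 b3)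
    intro x hx
    refine ⟨?_, ?_, (ev_mul hEv hx _ _).symm⟩
    · show _ = ev (B * S.L + A * S.F) x
      rw [ev_add hEv hx, ev_mul hEv hx, ev_mul hEv hx]
    · show _ = ev (B * S.R + A * S.F) x
      rw [ev_add hEv hx, ev_mul hEv hx, ev_mul hEv hx]
  | flip _ hT =>
    obtain ⟨A, a1, a2, ⟨j₁, a3⟩, a4⟩ := hT
    obtain ⟨k, hk⟩ := a4
    obtain ⟨j', h'⟩ := hRFlip _ _ _ _ _ k hk a2 a3
    refine ⟨rev A, hRev A a1, vR A a2, ⟨j', ?_⟩, iF _ ⟨k, hk⟩⟩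
    refine resp2_congr ?_ h'
    intro x hx
    refine ⟨?_, ?_, ?_⟩
    · exact (hInv _ _).symm
    · exact (hInv _ _).symm
    · show _ = ev (LaurentPolynomial.T (-1) * invert A.F) x
      rw [ev_mul hEv hx, ev_T hEv hx, hInv, zpow_neg_one]
  | special _ hT =>
    choose s hs using hT
    exact hFill _ _ s hs
  | opposite _ _ hS hT =>
    obtain ⟨A, a1, a2, ⟨j₁, a3⟩, a4⟩ := hS
    obtain ⟨B, b1, b2, ⟨j₂, b3⟩, b4⟩ := hT
    refine ⟨(A.mul B).F, A.F * B.F, ⟨hPair A B a1 b1, vO A B a2 b2, ⟨j₁ + j₂, ?_⟩,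
      (iM _ _ a4 b4).2⟩, (fun _ => ⟨A, B, a1, b1, rfl, rfl⟩), (fun h => by cases h)⟩
    refine resp1_congr ?_ (rOpp _ _ _ _ _ _ _ _ _ _ a2 b2 a3 b3)
    intro x hx
    refine ⟨?_, (ev_mul hEv hx _ _).symm⟩
    show _ = ev (A.R * B.F + A.F * B.L) x
    rw [ev_add hEv hx, ev_mul hEv hx, ev_mul hEv hx]
  | sum _ _ hP hQ =>
    obtain ⟨A, B, ⟨a1, a2, ⟨j₁, a3⟩, a4⟩, a5, a6⟩ := hP
    obtain ⟨A', B', ⟨b1, b2, ⟨j₂, b3⟩, b4⟩, b5, b6⟩ := hQ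
    refine ⟨A * B' + B * A', B * B', ⟨dSum _ _ _ _ a1 b1, vS _ _ _ _ a2 b2,
      ⟨j₁ + j₂ + 1, ?_⟩, iB false _ _ a4 b4⟩, ?_, ?_⟩
    · refine resp1_congr ?_ (rSum _ _ _ _ _ _ _ _ a2 b2 a3 b3)
      intro x hx
      refine ⟨?_, (ev_mul hEv hx _ _).symm⟩
      show _ = ev (A * B' + B * A') x
      rw [ev_add hEv hx, ev_mul hEv hx, ev_mul hEv hx]
    · intro h
      cases h with
      | sumLeft _ h => exact dL _ _ _ _ (a5 h) b1
      | sumRight _ h => exact dR _ _ _ _ a1 (b5 h)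
    · intro h
      cases h with
      | sum h h' => exact .add (a6 h) (b6 h')
  | turn _ ho hP =>
    obtain ⟨A, B, ⟨a1, a2, ⟨j₁, a3⟩, a4⟩, a5, a6⟩ := hP
    obtain ⟨j', h'⟩ := hRTurn _ _ _ _ a3
    refine ⟨invert B, invert A, ⟨?_, vT _ _ a2, ⟨j', ?_⟩, iT _ a4⟩, (fun h => by cases h), ?_⟩
    · rcases ho with ho | ho
      · exact hTurnPair _ _ (a5 ho)
      · exact hStar _ _ (a6 ho)
    · refine resp1_congr ?_ h'
      intro x hx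
      exact ⟨(hInv _ _).symm, (hInv _ _).symm⟩
    · intro h
      cases h with
      | turn h => exact .one (a5 h)

end Pool.Agent.Helper52.PG
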