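import Pool.Agent.Helper52.PG.Class

/-!
PROJECT C2, target (a), part V: the Alexander polynomials of the class.
-/

namespace Pool.Agent.Helper52.PG

open Pool.Agent.Helper36.SC Pool.Agent.Helper37.Arb Pool.Agent.Helper52.C2 Pool.Agent.Helper99.PG
open LaurentPolynomial

/-- the four properties -/
def Concl (Q : Polynomial ℤ) : Prop :=
  (∀ k, 0 ≤ (-1) ^ k * Q.coeff k) ∧
  (∀ k, Q.coeff k * Q.coeff (k + 2) ≤ Q.coeff (k + 1) ^ 2) ∧
  (∀ i j k, i < j → j < k → Q.coeff i ≠ 0 → Q.coeff k ≠ 0 → Q.coeff j ≠ 0) ∧ Q ≠ 0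

theorem concl_of (hEv : GoalEvHom) (hCoef : GoalCoefM) (Q : Polynomial ℤ) (f : ℝ[T;T⁻¹]) (m : ℤ)
    (h : ∀ x : ℝ, 0 < x → (Polynomial.aeval (-x) Q : ℝ) = x ^ m * ev f x)
    (h0 : ∀ i, 0 ≤ f.coeff i) (h1 : 0 < ev f 1)
    (h2 : ∀ i, f.coeff (i + 1) * f.coeff (i - 1) ≤ f.coeff i ^ 2)
    (h3 : ∀ i j k : ℤ, i < j → j < k → f.coeff i ≠ 0 → f.coeff k ≠ 0 → f.coeff j ≠ 0) :
    Concl Q := by
  have hc := hCoef hEv Q f m h
  have hsq : ∀ i : ℕ, ((-1 : ℝ) ^ i) * (-1) ^ i = 1 := by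
    intro i
    rw [← mul_pow]; norm_num
  have hc' : ∀ i : ℕ, (Q.coeff i : ℝ) = (-1 : ℝ) ^ i * f.coeff (i - m) := by
    intro i
    rw [← hc i, ← mul_assoc, hsq, one_mul]
  have hne : ∀ i : ℕ, Q.coeff i ≠ 0 ↔ f.coeff (i - m) ≠ 0 := by
    intro i
    rw [← hc i]
    have : ((-1 : ℝ) ^ i) ≠ 0 := pow_ne_zero _ (by norm_num)
    rw [mul_ne_zero_iff]
    constructor
    · intro h; exact ⟨this, by exact_mod_cast h⟩
    · rintro ⟨-, h⟩; exact_mod_cast h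
  refine ⟨?_, ?_, ?_, ?_⟩
  · intro k
    have := h0 (k - m)
    rw [← hc k] at this
    exact_mod_cast this
  · intro k
    have key := h2 ((k + 1 : ℕ) - m)
    have e1 : (((k + 1 : ℕ) : ℤ) - m + 1) = ((k + 2 : ℕ) : ℤ) - m := by push_cast; ring
    have e2 : (((k + 1 : ℕ) : ℤ) - m - 1) = (k : ℤ) - m := by push_cast; ring
    rw [e1, e2, ← hc, ← hc, ← hc] at key
    have e3 : (-1 : ℝ) ^ (k + 2) * (Q.coeff (k + 2) : ℝ) * ((-1) ^ k * (Q.coeff k : ℝ)) =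
        (Q.coeff k : ℝ) * Q.coeff (k + 2) := by
      rw [pow_add]
      have := hsq k
      linear_combination ((Q.coeff k : ℝ) * Q.coeff (k + 2)) * this
    have e4 : ((-1 : ℝ) ^ (k + 1) * (Q.coeff (k + 1) : ℝ)) ^ 2 = (Q.coeff (k + 1) : ℝ) ^ 2 := by
      have := hsq (k + 1)
      linear_combination ((Q.coeff (k + 1) : ℝ) ^ 2) * this
    rw [e3, e4] at key
    exact_mod_cast key
  · intro i j k hij hjk hi hk
    rw [hne] at hi hk ⊢
    exact h3 _ _ _ (by omega) (by omega) hi hk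
  · intro hQ
    have := h 1 one_pos
    rw [hQ, map_zero, one_zpow, one_mul] at this
    linarith

theorem final_of (hEv : GoalEvHom) (hCoef : GoalCoefM) (hClose : GoalCloseM)
    (hCross : GoalCross)
    (hLc : (∀ S : Tg, S.HH1 → ∀ i, S.F.coeff (i + 1) * S.F.coeff (i - 1) ≤ S.F.coeff i ^ 2) ∧
      (∀ A B : ℝ[T;T⁻¹], GoodPair A B → ∀ i, B.coeff (i + 1) * B.coeff (i - 1) ≤ B.coeff i ^ 2))
    (hGap : (∀ S : Tg, S.HH1 → ∀ i j k : ℤ, i < j → j < k → S.F.coeff i ≠ 0 →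
        S.F.coeff k ≠ 0 → S.F.coeff j ≠ 0) ∧
      (∀ A B : ℝ[T;T⁻¹], GoodPair A B → ∀ i j k : ℤ, i < j → j < k → B.coeff i ≠ 0 →
        B.coeff k ≠ 0 → B.coeff j ≠ 0))
    {s : Bool} (t : Tm s) (ht : Ok t) (u : t.diag.V) : Concl (t.diag.D.alexander u) := by
  cases s with
  | true =>
    obtain ⟨S, a1, a2, ⟨j, a3⟩, a4⟩ := ht
    obtain ⟨k, hk⟩ := hClose.1 t.diag j _ _ _ a2 a3 a4
    exact concl_of hEv hCoef _ S.F (k u) (hk u) a1.nonneg.F (a2 1 one_pos).2.2.1 (hLc.1 S a1)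
      (hGap.1 S a1)
  | false =>
    obtain ⟨A, B, ⟨a1, a2, ⟨j, a3⟩, a4⟩, -, -⟩ := ht
    obtain ⟨k, hk⟩ := hClose.2 t.diag j _ _ a2 a3 a4
    refine concl_of hEv hCoef _ B (k u) (hk u) ?_ (a2 1 one_pos).2 (hLc.2 A B a1) (hGap.2 A B a1)
    intro i
    have := (a1 (U 1) hCross).nonneg.F i
    have e : (bes A B (U 1)).F = B := by
      show B * geo 1 = B
      rw [geo_one, mul_one]
    rw [e] at this
    exact this

/-- all diagrams have regions -/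
theorem fac_all (hOps : GoalFacOps)
    (hFill : ∀ {V : Type} [Fintype V] [DecidableEq V] (S : Skel V) (M : V → Marked),
      (∀ v, Fac true (M v)) → Fac true (fill S.D S.l S.r M))
    {s : Bool} (t : Tm s) : Fac s t.diag := by
  obtain ⟨fC, fM, fO, fB, fF, fT⟩ := hOps
  induction t with
  | cross => exact fC
  | stack _ _ hS hT => exact fM _ _ hS hT
  | beside _ _ hP hT => exact fB true _ _ hP hT
  | flip _ hT => exact fF _ hT
  | special _ S _ hT => exact hFill S _ hT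
  | opposite _ _ hS hT => exact fO _ _ hS hT
  | sum _ _ hP hQ => exact fB false _ _ hP hQ
  | turn _ hP => exact fT _ hP

theorem planar_of (hOps : GoalFacOps)
    (hFill : ∀ {V : Type} [Fintype V] [DecidableEq V] (S : Skel V) (M : V → Marked),
      (∀ v, Fac true (M v)) → Fac true (fill S.D S.l S.r M))
    {s : Bool} (t : Tm s) : t.diag.D.Connected ∧ t.diag.D.Planar := by
  obtain ⟨F, ⟨G⟩⟩ := fac_all hOps hFill t
  exact planar_of_faces G

end Pool.Agent.Helper52.PG
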