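import Pool.Agent.Helper52.PG.Ops
import Pool.Agent.Helper99.PG.Goals
import Pool.Agent.Helper68.SK.Goals

/-!
PROJECT C2, target (a), parts IV and V: goals. Complete proofs in words (or the file to be
adapted) are in the docstrings. Every goal is a `Prop`; goals that are used appear as hypotheses.
-/

namespace Pool.Agent.Helper52.PG

open Pool.Agent.Helper36.SC Pool.Agent.Helper37.Arb Pool.Agent.Helper52.C2 Pool.Agent.Helper99.PG
open LaurentPolynomial
open scoped Classical

/-! ### REV: reversal -/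

/-- REVHH. `h` of `rev S` is `h_rev n i = h n (n - 1 - i)`: `pre (invert f) i = ΣF - pre f (-i-1)` where
`ΣF` is the sum of all coefficients of `f`, and the sums of the coefficients of `L` and `R` are equal
(GoalPre: `S.F.coeff i = pre L i - pre R i` is `0` for large `i`). So the window of `rev S` at the
base `(n, i)` is the window of `S` at `(n, n - 3 - i)` with `X` and `Y` exchanged (all nine entries;
for `n = 1` the entry `VV` is `max (h (-1) (-2-i)) 0` on both sides): OPMAP with the map that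
exchanges `X` and `Y`. -/
def GoalRevHH : Prop := GoalPre → GoalOpMap → ∀ S : Tg, S.HH1 → (rev S).HH1

/-- REVPAIR. (1) `GoodPair A B` implies `GoodPair (T k * A) (T k * B)`: `bes` of the shifted pair is the
shift of `bes A B S` (GoalShift, `Tg.ext`).
(2) Third part of OPS for `rev S`, `rev S'`: `((rev S).mul (rev S')).F = T (-1) * invert (S.mul S').F`
(because `S.L * S'.F + S.F * S'.R = (S.mul S').F` by `rel`), `(rev S).F * (rev S').F =
T (-2) * invert (S.F * S'.F)`; so it says `GoodPair (T (-1) * invert B) (T (-1) * invert A)`; shift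
by `1`. -/
def GoalRevPair : Prop := GoalShift → (∀ S : Tg, S.HH1 → (rev S).HH1) →
  (∀ A B : Tg, A.HH1 → B.HH1 → GoodPair (T 1 * (A.F * B.F)) ((A.mul B).F)) →
  (∀ (A B : ℝ[T;T⁻¹]) (k : ℤ), GoodPair A B → GoodPair (T k * A) (T k * B)) ∧
  ∀ A B : ℝ[T;T⁻¹], Dec A B → GoodPair (invert B) (invert A)

/-- DEC. (1) second part of OPS. (2) `bes (A B' + B A') (B B') S = bes A B (bes A' B' S)`
(`Tg.ext`, `ring`). (3) if `A = (S.mul S').F`, `B = S.F * S'.F` then the sum is the pair of
`bes A' B' S` and `S'`. (4) the same with the roles exchanged: the pair of `bes A B S` and `S'` if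
`(A', B')` is the pair of `S`, `S'`. -/
def GoalDec : Prop :=
  (∀ A B : Tg, A.HH1 → B.HH1 → GoodPair ((A.mul B).F) (A.F * B.F)) →
  (∀ A B : ℝ[T;T⁻¹], Dec A B → GoodPair A B) ∧
  (∀ A B A' B' : ℝ[T;T⁻¹], GoodPair A B → GoodPair A' B' →
    GoodPair (A * B' + B * A') (B * B')) ∧
  (∀ A B A' B' : ℝ[T;T⁻¹], Dec A B → GoodPair A' B' → Dec (A * B' + B * A') (B * B')) ∧
  (∀ A B A' B' : ℝ[T;T⁻¹], GoodPair A B → Dec A' B' → Dec (A * B' + B * A') (B * B'))

/-- STARGOOD. By induction over `Star` there are a finite type `ι` and `S, S' : ι → Tg` in HH1 with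
`invert B = ∏ i, ((S i).mul (S' i)).F` and
`invert A = ∑ i, ∏ j, if j = i then (S j).F * (S' j).F else ((S j).mul (S' j)).F`
(`one`: `Unit`; `add`: `ι ⊕ ι'`, `Fintype.prod_sum_type`, `Fintype.sum_sum_type`; `invert` is an
algebra equivalence and `invert (invert f) = f`). Transport to `Fin r` (`Fintype.equivFin`) and use
the hypothesis (`Finset.prod_erase`-like rewriting of the product over `univ.erase i`). -/
def GoalStarGood : Prop :=
  (∀ (r : ℕ) (S S' : Fin r → Tg), (∀ i, (S i).HH1) → (∀ i, (S' i).HH1) →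
    GoodPair (∏ i, ((S i).mul (S' i)).F)
      (∑ i, (S i).F * (S' i).F * ∏ j ∈ Finset.univ.erase i, ((S j).mul (S' j)).F)) →
  ∀ A B : ℝ[T;T⁻¹], Star A B → GoodPair (invert B) (invert A)

/-! ### NOGAP -/

/-- NOGAP. `h (n+1) i = h n i + R (i-n) = h n (i-1) + L i`, so `h n i ≥ 0`, `h (n+1) i ≥ h n i` and
`h (n+1) i ≥ h n (i-1)`; `h (-1) i = F (i+1) - L (i+1)` (all from GoalPre). Let `F p > 0`,
`F (p+1) = 0`. Claim: `h n (p+n) > 0` and `h n (p+n+1) = 0` for all `n ≥ 0`. Step from `n` (and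
`n - 1`) to `n + 1`: in the window at `(n+1, p+n)` we have `XV = h n (p+n+1) = 0`,
`YV = h n (p+n) > 0`, `VV = h (n-1) (p+n) = 0` if `n ≥ 1` and `VV = max (h (-1) p) 0 =
max (- L (p+1)) 0 = 0` if `n = 0`. If `XX > 0` take the vectors `X` and `Y + c V`: the form on
`a X + b (Y + c V)` is `a² XX + 2 a b XY + b² (YY + 2 c YV)`, positive definite for large `c`, but
there is a nonzero such vector with `∑ l v = 0`: contradiction. So
`h (n+1) (p+n+2) = XX = 0`. Hence `F (p+n+1) = h 0 (p+n+1) ≤ h n (p+n+1) = 0` for all `n ≥ 0`.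
Second part: the first for `bes A B (U 1)`, whose `F` is `B * geo 1 = B`. -/
def GoalNoGap : Prop := GoalPre → GoalCross →
  (∀ S : Tg, S.HH1 → ∀ i j k : ℤ, i < j → j < k → S.F.coeff i ≠ 0 → S.F.coeff k ≠ 0 →
    S.F.coeff j ≠ 0) ∧
  (∀ A B : ℝ[T;T⁻¹], GoodPair A B → ∀ i j k : ℤ, i < j → j < k → B.coeff i ≠ 0 →
    B.coeff k ≠ 0 → B.coeff j ≠ 0)

/-! ### VALS: values -/

/-- EVINV. -/
def GoalEvInv : Prop := ∀ (f : ℝ[T;T⁻¹]) (x : ℝ), ev (invert f) x = ev f x⁻¹

/-- values of an abstract tangle are positive -/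
def VT (S : Tg) : Prop := Vals (ev S.L) (ev S.R) (ev S.F)

/-- VALS. Use the ring homomorphism of EVHOM at every `x > 0`; the linear relation in `Vals` is
`S.rel` for all tangles. -/
def GoalVals : Prop := GoalEvHom → GoalEvInv →
  VT (U 1) ∧ (∀ S S' : Tg, VT S → VT S' → VT (S.mul S')) ∧
  (∀ (A B : ℝ[T;T⁻¹]) (S : Tg), PVals A B → VT S → VT (bes A B S)) ∧
  (∀ S : Tg, VT S → VT (rev S)) ∧
  (∀ S S' : Tg, VT S → VT S' → PVals ((S.mul S').F) (S.F * S'.F)) ∧
  (∀ A B A' B' : ℝ[T;T⁻¹], PVals A B → PVals A' B' → PVals (A * B' + B * A') (B * B')) ∧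
  (∀ A B : ℝ[T;T⁻¹], PVals A B → PVals (invert B) (invert A))

/-! ### RESP: responses of the operations (real functions) -/

/-- RESPCROSS. Adapt `respCross` of Helper82/Arb/Rstack.lean. -/
def GoalRCross : Prop := Resp2 mcross 0 (fun _ => 1) (fun x => x) (fun _ => 1)

/-- RESPSTACK. Adapt `respStack` of Helper82/Arb/Rstack.lean, with `stack_aux` of
Helper12/Arb/Mat.lean and `detBlock` of Helper94/Arb/Detblock.lean. -/
def GoalRStack : Prop := ∀ (S T : Marked) (j₁ j₂ : ℤ) (L₁ R₁ b₁ L₂ R₂ b₂ : ℝ → ℝ),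
  Vals L₁ R₁ b₁ → Vals L₂ R₂ b₂ → Resp2 S j₁ L₁ R₁ b₁ → Resp2 T j₂ L₂ R₂ b₂ →
  Resp2 (mstack S T) (j₁ + j₂) (fun x => L₁ x * L₂ x) (fun x => R₁ x * R₂ x)
    (fun x => R₁ x * b₂ x + b₁ x * L₂ x)

/-- RESPBESIDE. Adapt `respBeside` of Helper91/Arb/Rbeside.lean (`beside_aux`). -/
def GoalRBeside : Prop := ∀ (P T : Marked) (j₁ j₂ : ℤ) (A B L R b : ℝ → ℝ),
  (∀ x, 0 < x → 0 < A x ∧ 0 < B x) → Vals L R b → Resp1 P j₁ A B → Resp2 T j₂ L R b →
  Resp2 (mbeside P T) (j₁ + j₂ + 1) (fun x => B x * L x + A x * b x)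
    (fun x => B x * R x + A x * b x) (fun x => B x * b x)

/-- RESPOPPOSITE. Adapt `respOpposite` of Helper24/Arb/Ropp.lean (`opposite_aux`). -/
def GoalROpp : Prop := ∀ (S T : Marked) (j₁ j₂ : ℤ) (L₁ R₁ b₁ L₂ R₂ b₂ : ℝ → ℝ),
  Vals L₁ R₁ b₁ → Vals L₂ R₂ b₂ → Resp2 S j₁ L₁ R₁ b₁ → Resp2 T j₂ L₂ R₂ b₂ →
  Resp1 (mopp S T) (j₁ + j₂) (fun x => R₁ x * b₂ x + b₁ x * L₂ x) (fun x => b₁ x * b₂ x)

/-- RESPSUM. Adapt `respSum` of Helper86/Arb/Rsum.lean (`sum_aux`). -/
def GoalRSum : Prop := ∀ (P Q : Marked) (j₁ j₂ : ℤ) (A₁ B₁ A₂ B₂ : ℝ → ℝ),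
  (∀ x, 0 < x → 0 < A₁ x ∧ 0 < B₁ x) → (∀ x, 0 < x → 0 < A₂ x ∧ 0 < B₂ x) →
  Resp1 P j₁ A₁ B₁ → Resp1 Q j₂ A₂ B₂ →
  Resp1 (mbeside P Q) (j₁ + j₂ + 1) (fun x => A₁ x * B₂ x + B₁ x * A₂ x)
    (fun x => B₁ x * B₂ x)

/-- RESPTURN. Adapt `respTurn` of Helper14/Arb/Rturn.lean: the matrix of `mturn P` at `x` is `x` times
the matrix of `P` at `x⁻¹`, so `det = x^card * (x⁻¹)^j * (a x⁻¹ + x⁻¹ * b x⁻¹)`, and with
`a' x = b x⁻¹`, `b' x = a x⁻¹` the last factor is `x⁻¹ * (a' x + x * b' x)`; exponent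
`card - j - 1`. The solution for `(s,t)` at `x` is the solution of `P` at `x⁻¹`; multiply its two
equations by `x`. -/
def GoalRTurn : Prop := ∀ (P : Marked) (j : ℤ) (a b : ℝ → ℝ), Resp1 P j a b →
  ∃ j' : ℤ, Resp1 (mturn P) j' (fun x => b x⁻¹) (fun x => a x⁻¹)

/-- RESPFLIP. Adapt `flip_resp` of Helper9/Arb/Rflip.lean (`flip_entry`, `flip_det` can be cited):
with `y = x⁻¹`, `L' y = R x`, `R' y = L x`, `b' y = x * b x` one has
`b' y + R' y = x b x + L x = b x + R x`, the two equations are the facts called `e1` in that proof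
(no multiplication by `x ^ N`), exponent `card - j`. -/
def GoalRFlip : Prop := ∀ (T : Marked) (j : ℤ) (L R b : ℝ → ℝ) (k : T.V → ℤ),
  Index true T k → Vals L R b → Resp2 T j L R b →
  ∃ j' : ℤ, Resp2 (mflip T) j' (fun x => R x⁻¹) (fun x => L x⁻¹) (fun x => x⁻¹ * b x⁻¹)

/-- IDX. Adapt `index` of Helper96/Arb/Index.lean. -/
def GoalIdx : Prop :=
  (∃ k, Index true mcross k) ∧
  (∀ M N : Marked, (∃ k, Index true M k) → (∃ k, Index true N k) →
    (∃ k, Index true (mstack M N) k) ∧ ∃ k, Index false (mopp M N) k) ∧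
  (∀ (s : Bool) (M N : Marked), (∃ k, Index false M k) → (∃ k, Index s N k) →
    ∃ k, Index s (mbeside M N) k) ∧
  (∀ M : Marked, (∃ k, Index true M k) → ∃ k, Index true (mflip M) k) ∧
  (∀ M : Marked, (∃ k, Index false M k) → ∃ k, Index false (mturn M) k)

/-! ### CLOSE, COEF -/

/-- CLOSEM. Adapt `close` of Helper19/Arb/Close.lean (`fin` and the other lemmas there can be
cited), `cofactor` of Helper49/Arb/Cofactor.lean, `detOne` of Helper94/Arb/Detblock.lean. -/
def GoalCloseM : Prop :=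
  (∀ (M : Marked) (j : ℤ) (L R b : ℝ → ℝ), Vals L R b → Resp2 M j L R b →
    (∃ k, Index true M k) → ∃ k : M.V → ℤ, ∀ u : M.V, ∀ x : ℝ, 0 < x →
      Polynomial.aeval (-x) (M.D.alexander u) = x ^ (k u) * b x) ∧
  (∀ (M : Marked) (j : ℤ) (a b : ℝ → ℝ), (∀ x, 0 < x → 0 < a x ∧ 0 < b x) → Resp1 M j a b →
    (∃ k, Index false M k) → ∃ k : M.V → ℤ, ∀ u : M.V, ∀ x : ℝ, 0 < x →
      Polynomial.aeval (-x) (M.D.alexander u) = x ^ (k u) * b x)

/-- COEFM. `T (-m) * (Q(-X) as a Laurent polynomial) = f`: multiply by a large power of `X` to get two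
polynomials with equal values at all `x > 0` (`Helper54.Arb.eq_of_pos`); for real polynomials `p`
one has `ev (toLaurent p) x = p.eval x`, and `f = T (-N) * toLaurent p` for some `p`
(`LaurentPolynomial.exists_T_pow`); EVHOM for the products with `T`. -/
def GoalCoefM : Prop := GoalEvHom → ∀ (Q : Polynomial ℤ) (f : ℝ[T;T⁻¹]) (m : ℤ),
  (∀ x : ℝ, 0 < x → (Polynomial.aeval (-x) Q : ℝ) = x ^ m * ev f x) →
  ∀ i : ℕ, (-1 : ℝ) ^ i * (Q.coeff i : ℝ) = f.coeff (i - m)

/-! ### FACES -/

/-- FACOPS. Adapt `faces`, `faces_cross` of Helper37/Arb/Planar.lean (`faces_stack'`, `faces_besum'`,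
`faces_opp'`, `faces_flip`, `faces_turn` are stated for arbitrary diagrams). -/
def GoalFacOps : Prop :=
  Fac true mcross ∧ (∀ M N : Marked, Fac true M → Fac true N → Fac true (mstack M N)) ∧
  (∀ M N : Marked, Fac true M → Fac true N → Fac false (mopp M N)) ∧
  (∀ (s : Bool) (M N : Marked), Fac false M → Fac s N → Fac s (mbeside M N)) ∧
  (∀ M : Marked, Fac true M → Fac true (mflip M)) ∧
  (∀ M : Marked, Fac false M → Fac false (mturn M))

/-- TYPES. All crossings of `D` are positive, so `SameSide` preserves the type of a corner: `left`,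
`right`, or one of `front`, `back`. Write `α = underNext`, `β = overNext`. A function on corners
is constant on regions iff `h (v,left) = h (αv,left)`, `h (v,right) = h (βv,right)`,
`h (v,front) = h (βv,back) = h (αv,back)`. -/
def GoalTypes : Prop := ∀ {V : Type} (D : AltDiagram V), (∀ v, D.pos v = true) →
  (∀ v w, D.region (v, .left) ≠ D.region (w, .right) ∧
    D.region (v, .left) ≠ D.region (w, .front) ∧ D.region (v, .left) ≠ D.region (w, .back) ∧
    D.region (v, .right) ≠ D.region (w, .front) ∧ D.region (v, .right) ≠ D.region (w, .back)) ∧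
  ∀ (α : Type) (h : V × Corner → α), (∀ v, h (v, .left) = h (D.underNext v, .left)) →
    (∀ v, h (v, .right) = h (D.overNext v, .right)) →
    (∀ v, h (v, .front) = h (D.overNext v, .back)) →
    (∀ v, h (v, .front) = h (D.underNext v, .back)) →
    ∀ c c', D.region c = D.region c' → h c = h c'

/-- CUTFN. Functions on the corners of the complement of `none`. `α = underNext`, `β = overNext`,
`α l = none`, `β r = none`. Given `n s w e : V → ℝ` (values at front, back, left, right) with
`e v = e v'`, `n v = s v'` if `β v = v'` and `w v = w v'`, `n v = s v'` if `α v = v'`, the values extend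
to a function on all corners of `D` that is constant on regions. Proof.
(left) Put `g none = w (α none)`, `g v = w v`; `∑_(x : Option V) (g (α x) - g x) = 0` and all terms
with `x ≠ l` vanish, so `w l = w (α none)`. In the same way `e r = e (β none)`.
(front, back) Let `χ x = 1` if `region (x, front) = region (none, front)`, else `0`, and `χ' x` the
same for `region (x, back)`. Then `χ' (β x) = χ x = χ' (α x)`, `χ none = 1`, `χ' none = 0` by `cut`,
so `χ l = χ r = 0`. Let `N`, `S` be any extensions of `n`, `s` to `Option V`.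
`∑_x χ x (N x - S (β x)) = ∑ χ N - ∑ χ' S = ∑_x χ x (N x - S (α x))`; all terms except `x = none` vanish
(`x = r`: `χ r = 0`, `x = l`: `χ l = 0`), so `s (β none) = s (α none)`. With the indicator of
`region (none, back)` in the same way (`χ none = 0`, `χ l = χ r = 1`): `n r = n l`. Put
`h (none, left) = w l`, `h (none, right) = e r`, `h (none, front) = s (α none)`,
`h (none, back) = n l` and use TYPES. -/
def GoalCutFn : Prop := GoalTypes → ∀ {V : Type} [Fintype V] [DecidableEq V] (S : Skel V)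
  (n s w e : V → ℝ),
  (∀ v v', S.D.overNext (some v) = some v' → e v = e v' ∧ n v = s v') →
  (∀ v v', S.D.underNext (some v) = some v' → w v = w v' ∧ n v = s v') →
  ∃ h : S.D.Region → ℝ, ∀ v, h (S.D.region (some v, .front)) = n v ∧
    h (S.D.region (some v, .back)) = s v ∧ h (S.D.region (some v, .left)) = w v ∧
    h (S.D.region (some v, .right)) = e v

/-- CUTCONN. `D` without `none` is connected: a function `P : V → ℝ` with `P v = P v'` if `β v = v'` or
`α v = v'` is constant. Proof. As in CUTFN `P l = P (α none)` and `P r = P (β none)`. If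
`P l = P r` extend `P` by this value to `none` and use `Connected` for the set where `P` has the
value `P v₀`. Otherwise let `Z = {v | P v = P l}`; `Z ∪ {none}` is `α`-invariant (`α` maps it
onto itself), and `Z` is `β`-invariant (`r` and `β none` have the value `P r`). With `χ`, `χ'` of
CUTFN: `∑_(x in Z) (χ x - χ' x) = 0` (`χ' (β x) = χ x`) and `∑_(x in Z ∪ {none}) (χ x - χ' x) = 0`, so
`χ none = χ' none`, contradiction to `cut`. -/
def GoalCutConn : Prop := ∀ {V : Type} [Fintype V] [DecidableEq V] (S : Skel V) (P : V → ℝ),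
  (∀ v v', S.D.overNext (some v) = some v' → P v = P v') →
  (∀ v v', S.D.underNext (some v) = some v' → P v = P v') → ∀ v v', P v = P v'

/-- FACFILL. Let `G v` be the regions of `M v` with labels in `F v`. Labels of the fill:
`S.D.Region ⊕ Σ v, {x : F v // x ≠ N, S, W, E}`; the label of the corner `(⟨v, p⟩, c)` is, with
`x = (G v).ρ (p, c)`: the region of `(v, front)`, `(v, back)`, `(v, left)`, `(v, right)` if
`x = N, S, W, E`, and `⟨v, x⟩` otherwise. `N, S, W, E` of the fill are the regions of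
`(none, back)`, `(none, front)`, `(none, left)`, `(none, right)`; they are different by `cut` and
TYPES. Number: `|V| + 3 + ∑ (|V_v| + 3 - 4) = ∑ |V_v| + 3` (`planar`). `sound`: a step inside
`M v` by `(G v).sound`; the steps from `⟨v, r_v⟩` (`v ≠ r`) lead to `⟨w, overNext r_w⟩`,
`some w = overNext (some v)`, labels `N_v, S_w` resp. `E_v, E_w` (`t1` - `t4`), `SameSide` of `D`;
the steps from `⟨v, l_v⟩` (`v ≠ l`) in the same way (`l1` - `l4`). `l1` - `l4`, `t1` - `t4`: steps of
`SameSide` at `l`, `none`, `r` (`underNext` of `⟨l, l_l⟩` is `⟨w, underNext l_w⟩`,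
`some w = underNext none`). `surj`: the corners of `none` are `SameSide` to others.
`conn`: fix `c` and let `f c' = 1` if `EqvGen Opn c c'`, else `0`. Inside `M v` the function `f` is
constant on the labels of `F v` (`(G v).conn`, the steps of `Opn` of `M v` are steps of `Opn` of the
fill); let `n v, s v, w v, e v` be its values at the labels `N, S, W, E`. The steps between
different `M v` give the hypotheses of CUTFN, so `f` is constant on labels. Crossings: the same
with CUTCONN. -/
def GoalFacFill : Prop := GoalTypes →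
  (∀ {V : Type} [Fintype V] [DecidableEq V] (S : Skel V) (n s w e : V → ℝ),
    (∀ v v', S.D.overNext (some v) = some v' → e v = e v' ∧ n v = s v') →
    (∀ v v', S.D.underNext (some v) = some v' → w v = w v' ∧ n v = s v') →
    ∃ h : S.D.Region → ℝ, ∀ v, h (S.D.region (some v, .front)) = n v ∧
      h (S.D.region (some v, .back)) = s v ∧ h (S.D.region (some v, .left)) = w v ∧
      h (S.D.region (some v, .right)) = e v) → GoalCutConn →
  ∀ {V : Type} [Fintype V] [DecidableEq V] (S : Skel V) (M : V → Marked),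
    (∀ v, Fac true (M v)) → Fac true (fill S.D S.l S.r M)

end Pool.Agent.Helper52.PG
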