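import Pool.Agent.Helper81.PG.FF
import Pool.Agent.Helper12.Arb.Mat

/-!
PROJECT C2, target (a), part V: a special diagram is the diagram of a term.
-/

namespace Pool.Agent.Helper52.PG

open Pool.Agent.Helper36.SC Pool.Agent.Helper37.Arb Pool.Agent.Helper52.C2 Pool.Agent.Helper99.PG
open Pool.Agent.Helper81.PG

/-- names of the crossings -/
def nm {V : Type} : ((Σ _ : V, Unit) ⊕ Unit) ≃ Option V where
  toFun := Sum.elim (fun x => some x.1) (fun _ => none)
  invFun := fun o => o.elim (.inr ()) fun v => .inl ⟨v, ()⟩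
  left_inv := by rintro (⟨v, ⟨⟩⟩ | ⟨⟩) <;> rfl
  right_inv := by rintro (_ | v) <;> rfl

section

variable {V : Type} [DecidableEq V] [Fintype V] (S : Skel V)

/-- successor on the overpass -/
def ov (x : (Σ _ : V, Unit) ⊕ Unit) : (Σ _ : V, Unit) ⊕ Unit :=
  (mstack (fill S.D S.l S.r fun _ => mcross) mcross).D.overNext x

/-- successor on the underpass -/
def un (x : (Σ _ : V, Unit) ⊕ Unit) : (Σ _ : V, Unit) ⊕ Unit :=
  (mstack (fill S.D S.l S.r fun _ => mcross) mcross).D.underNext x

theorem nm_over (x : (Σ _ : V, Unit) ⊕ Unit) : S.D.overNext (nm x) = nm (ov S x) := by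
  obtain ⟨w, hw⟩ := over_none S
  rcases x with ⟨v, u⟩ | u
  · by_cases h : v = S.r
    · subst h
      have e : ov S (.inl ⟨S.r, u⟩) = .inr () :=
        (Pool.Agent.Helper12.Arb.swapOver_inl (fill S.D S.l S.r fun _ => mcross).D mcross.D
          (fill S.D S.l S.r fun _ => mcross).r mcross.r ⟨S.r, u⟩).trans (if_pos rfl)
      rw [e]
      exact S.hr
    · obtain ⟨w', hw'⟩ := over_ne S v h
      have e2 : (fill S.D S.l S.r fun _ => mcross).D.overNext ⟨v, u⟩ = ⟨w', ()⟩ :=
        over_mark S (fun _ => mcross) v w' hw'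
      have e : ov S (.inl ⟨v, u⟩) = .inl ⟨w', ()⟩ :=
        ((Pool.Agent.Helper12.Arb.swapOver_inl (fill S.D S.l S.r fun _ => mcross).D mcross.D
          (fill S.D S.l S.r fun _ => mcross).r mcross.r ⟨v, u⟩).trans
            (if_neg fun hh => h (congrArg Sigma.fst hh))).trans (congrArg Sum.inl e2)
      rw [e]
      exact hw'
  · have e2 : (fill S.D S.l S.r fun _ => mcross).D.overNext
      (fill S.D S.l S.r fun _ => mcross).r = ⟨w, ()⟩ := over_last S (fun _ => mcross) w hw
    have e : ov S (.inr u) = .inl ⟨w, ()⟩ :=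
      ((Pool.Agent.Helper12.Arb.swapOver_inr (fill S.D S.l S.r fun _ => mcross).D mcross.D
        (fill S.D S.l S.r fun _ => mcross).r mcross.r u).trans (if_pos rfl)).trans
          (congrArg Sum.inl e2)
    rw [e]
    exact hw

theorem nm_under (x : (Σ _ : V, Unit) ⊕ Unit) : S.D.underNext (nm x) = nm (un S x) := by
  obtain ⟨w, hw⟩ := under_none S
  rcases x with ⟨v, u⟩ | u
  · by_cases h : v = S.l
    · subst h
      have e : un S (.inl ⟨S.l, u⟩) = .inr () :=
        (Pool.Agent.Helper12.Arb.swapUnder_inl (fill S.D S.l S.r fun _ => mcross).D mcross.D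
          (fill S.D S.l S.r fun _ => mcross).l mcross.l ⟨S.l, u⟩).trans (if_pos rfl)
      rw [e]
      exact S.hl
    · obtain ⟨w', hw'⟩ := under_ne S v h
      have e2 : (fill S.D S.l S.r fun _ => mcross).D.underNext ⟨v, u⟩ = ⟨w', ()⟩ :=
        under_mark S (fun _ => mcross) v w' hw'
      have e : un S (.inl ⟨v, u⟩) = .inl ⟨w', ()⟩ :=
        ((Pool.Agent.Helper12.Arb.swapUnder_inl (fill S.D S.l S.r fun _ => mcross).D mcross.D
          (fill S.D S.l S.r fun _ => mcross).l mcross.l ⟨v, u⟩).trans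
            (if_neg fun hh => h (congrArg Sigma.fst hh))).trans (congrArg Sum.inl e2)
      rw [e]
      exact hw'
  · have e2 : (fill S.D S.l S.r fun _ => mcross).D.underNext
      (fill S.D S.l S.r fun _ => mcross).l = ⟨w, ()⟩ := under_last S (fun _ => mcross) w hw
    have e : un S (.inr u) = .inl ⟨w, ()⟩ :=
      ((Pool.Agent.Helper12.Arb.swapUnder_inr (fill S.D S.l S.r fun _ => mcross).D mcross.D
        (fill S.D S.l S.r fun _ => mcross).l mcross.l u).trans (if_pos rfl)).trans
          (congrArg Sum.inl e2)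
    rw [e]
    exact hw

theorem nm_pos (x : (Σ _ : V, Unit) ⊕ Unit) :
    S.D.pos (nm x) = (mstack (fill S.D S.l S.r fun _ => mcross) mcross).D.pos x := by
  rw [S.pos]
  rcases x with ⟨v, u⟩ | u <;> rfl

end

end Pool.Agent.Helper52.PG
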