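import Pool.Agent.Helper99.PG.Defs
import Pool.Agent.Helper52.C2.Goals
import Pool.Agent.Helper37.Arb.Planar

/-!
PROJECT C2, target (a), parts IV and V: operations on marked diagrams, terms. Definitions.
-/

namespace Pool.Agent.Helper52.PG

open Pool.Agent.Helper36.SC Pool.Agent.Helper37.Arb Pool.Agent.Helper52.C2 Pool.Agent.Helper99.PG
open LaurentPolynomial

/-! ### Operations on marked diagrams -/

/-- a single crossing -/
def mcross : Marked where
  V := Unit
  D := ⟨fun _ => true, Equiv.refl _, Equiv.refl _⟩
  l := ()
  r := ()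

/-- `T` on top of `S` -/
def mstack (S T : Marked) : Marked where
  V := S.V ⊕ T.V
  D := swapOver (swapUnder (Pool.Agent.Helper37.Arb.union S.D T.D) (.inl S.l) (.inr T.l))
    (.inl S.r) (.inr T.r)
  l := .inr T.l
  r := .inr T.r

/-- `P` to the left of `T` (for both kinds of the second tangle) -/
def mbeside (P T : Marked) : Marked where
  V := P.V ⊕ T.V
  D := swapUnder (Pool.Agent.Helper37.Arb.union P.D T.D) (.inl P.r) (.inr T.l)
  l := .inl P.l
  r := .inr T.r

/-- rotation about the vertical axis -/
def mflip (T : Marked) : Marked where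
  V := T.V
  D := ⟨T.D.pos, T.D.underNext, T.D.overNext⟩
  l := T.r
  r := T.l

/-- `S` to the left of `T`, `T` rotated by `π` -/
def mopp (S T : Marked) : Marked where
  V := S.V ⊕ T.V
  D := swapOver (Pool.Agent.Helper37.Arb.union S.D T.D) (.inl S.r) (.inr T.r)
  l := .inl S.l
  r := .inr T.l

/-- reflection in a diagonal -/
def mturn (P : Marked) : Marked where
  V := P.V
  D := ⟨fun v => !P.D.pos v, P.D.overNext, (Equiv.swap P.l P.r).trans P.D.underNext⟩
  l := P.l
  r := P.r

/-! ### Polynomials -/

/-- the reversed tangle -/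
noncomputable def rev (S : Tg) : Tg where
  L := invert S.R
  R := invert S.L
  F := T (-1) * invert S.F
  rel := by
    have h : invert (S.F * (1 - T 1)) = invert (S.L - S.R) := by rw [S.rel]
    rw [map_mul, map_sub, map_sub, map_one, invert_T] at h
    have e : (T (-1) * T 1 : ℝ[T;T⁻¹]) = 1 := by rw [← T_add]; simp
    have : T (-1) * invert S.F * (1 - T 1) = - (invert S.F * (1 - T (-1))) := by
      linear_combination (-invert S.F) * e
    rw [this, h]
    ring

/-- A pair obtained from two tangles in HH1 by `opposite`. -/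
def Dec (A B : ℝ[T;T⁻¹]) : Prop :=
  ∃ S S' : Tg, S.HH1 ∧ S'.HH1 ∧ A = (S.mul S').F ∧ B = S.F * S'.F

/-- sums of turned pairs of `Dec` -/
inductive Star : ℝ[T;T⁻¹] → ℝ[T;T⁻¹] → Prop
  | one {A B : ℝ[T;T⁻¹]} : Dec A B → Star (invert B) (invert A)
  | add {A B A' B' : ℝ[T;T⁻¹]} : Star A B → Star A' B' → Star (A * B' + B * A') (B * B')

/-- the values are positive -/
def PVals (A B : ℝ[T;T⁻¹]) : Prop := ∀ x : ℝ, 0 < x → 0 < ev A x ∧ 0 < ev B x

/-- The antiparallel tangle diagram `M` has the polynomials `A`, `B`. -/
def AntiOK (M : Marked) (A B : ℝ[T;T⁻¹]) : Prop :=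
  GoodPair A B ∧ PVals A B ∧ (∃ j, Resp1 M j (ev A) (ev B)) ∧ ∃ k, Index false M k

/-- regions exist -/
def Fac (s : Bool) (M : Marked) : Prop := ∃ F : Type, Nonempty (Faces s M.D M.l M.r F)

/-! ### Terms -/

/-- Oriented alternating tangle diagrams. -/
inductive Tm : Bool → Type
  /-- a single positive crossing -/
  | cross : Tm true
  /-- `T` on top of `S` -/
  | stack (S T : Tm true) : Tm true
  /-- `P` to the left of `T` -/
  | beside (P : Tm false) (T : Tm true) : Tm true
  /-- rotation by the angle `π` about the vertical axis in space -/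
  | flip (T : Tm true) : Tm true
  /-- a special alternating diagram without one crossing, the others replaced by tangles -/
  | special (n : ℕ) (S : Skel (Fin n)) (T : Fin n → Tm true) : Tm true
  /-- `S` to the left of `T`, where `T` is rotated by `π` in the plane -/
  | opposite (S T : Tm true) : Tm false
  /-- `P` to the left of `Q` -/
  | sum (P Q : Tm false) : Tm false
  /-- reflection of the diagram in a diagonal -/
  | turn (P : Tm false) : Tm false

/-- the marked diagram -/
noncomputable def Tm.diag {s : Bool} (t : Tm s) : Marked :=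
  Tm.rec (motive := fun _ _ => Marked) mcross (fun _ _ S T => mstack S T)
    (fun _ _ P T => mbeside P T) (fun _ T => mflip T)
    (fun _ S _ T => fill S.D S.l S.r T) (fun _ _ S T => mopp S T) (fun _ _ P Q => mbeside P Q)
    (fun _ P => mturn P) t

/-- one of the summands is `opposite S T` -/
inductive HasOpp : Tm false → Prop
  | opposite (S T : Tm true) : HasOpp (.opposite S T)
  | sumLeft {P : Tm false} (Q : Tm false) : HasOpp P → HasOpp (.sum P Q)
  | sumRight (P : Tm false) {Q : Tm false} : HasOpp Q → HasOpp (.sum P Q)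

/-- all summands are turned tangles that have a summand `opposite S T` -/
inductive Turned : Tm false → Prop
  | turn {P : Tm false} : HasOpp P → Turned (.turn P)
  | sum {P Q : Tm false} : Turned P → Turned Q → Turned (.sum P Q)

/-- the class -/
inductive Fine : ∀ {s : Bool}, Tm s → Prop
  | cross : Fine .cross
  | stack {S T : Tm true} : Fine S → Fine T → Fine (.stack S T)
  | beside {P : Tm false} {T : Tm true} : Fine P → Fine T → Fine (.beside P T)
  | flip {T : Tm true} : Fine T → Fine (.flip T)
  | special {n : ℕ} {S : Skel (Fin n)} {T : Fin n → Tm true} : (∀ v, Fine (T v)) →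
      Fine (.special n S T)
  | opposite {S T : Tm true} : Fine S → Fine T → Fine (.opposite S T)
  | sum {P Q : Tm false} : Fine P → Fine Q → Fine (.sum P Q)
  | turn {P : Tm false} : Fine P → (HasOpp P ∨ Turned P) → Fine (.turn P)

end Pool.Agent.Helper52.PG
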